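import Pool.Agent.Y139.SW.B

/-!
Derivatives of stationary waves with finite fourth moment have finite fourth moments (helper17).
-/

set_option autoImplicit false
open MeasureTheory Filter Topology
open scoped ContDiff ENNReal

namespace Pool.Agent.W2helper17.FM

open Pool.Agent.Y139.SW

noncomputable section

variable {d : ℕ}

/-- the cut-off on the line -/
def X (t : ℝ) : ℝ := Real.smoothTransition (2 - t)

lemma X_sm : ContDiff ℝ ∞ X :=
  Real.smoothTransition.contDiff.comp (contDiff_const.sub contDiff_id)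

lemma X_zero {t : ℝ} (h : 2 ≤ t) : X t = 0 := Real.smoothTransition.zero_of_nonpos (by linarith)

lemma X_one {t : ℝ} (h : t ≤ 1) : X t = 1 := Real.smoothTransition.one_of_one_le (by linarith)

lemma X_anti : Antitone X := fun a b h => Real.smoothTransition.monotone (by linarith)

lemma X'_sm : ContDiff ℝ ∞ (deriv X) := by
  have := contDiff_infty_iff_deriv.1 X_sm
  exact this.2

lemma X'_np (t : ℝ) : deriv X t ≤ 0 := X_anti.deriv_nonpos

lemma X'_zero {t : ℝ} (h : 2 < t) : deriv X t = 0 := by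
  have : X =ᶠ[𝓝 t] fun _ => 0 := by
    filter_upwards [lt_mem_nhds h] with z hz using X_zero hz.le
  rw [this.deriv_eq]; simp

lemma X'_ex : ∃ t : ℝ, 0 < t ∧ deriv X t < 0 := by
  obtain ⟨t, ht, h⟩ := exists_deriv_eq_slope X (a := 1) (b := 2) (by norm_num)
    X_sm.continuous.continuousOn ((X_sm.differentiable (by simp)).differentiableOn)
  refine ⟨t, by linarith [ht.1], ?_⟩
  rw [h, X_zero le_rfl, X_one le_rfl]; norm_num

/-- the radial cut-off -/
def Φ (y : E d) : ℝ := X (‖y‖ ^ 2)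

/-- the radial weight -/
def φ (y : E d) : ℝ := 2 * deriv X (‖y‖ ^ 2)

lemma Φ_sm : ContDiff ℝ ∞ (Φ : E d → ℝ) := X_sm.comp (contDiff_norm_sq ℝ)

lemma φ_sm : ContDiff ℝ ∞ (φ : E d → ℝ) :=
  contDiff_const.mul (X'_sm.comp (contDiff_norm_sq ℝ))

lemma Φ_cs : HasCompactSupport (Φ : E d → ℝ) := by
  refine HasCompactSupport.intro (isCompact_closedBall 0 2) fun y hy => ?_
  have : 2 < ‖y‖ := by simpa using hy
  exact X_zero (by nlinarith)

lemma φ_cs : HasCompactSupport (φ : E d → ℝ) := by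
  refine HasCompactSupport.intro (isCompact_closedBall 0 2) fun y hy => ?_
  have : 2 < ‖y‖ := by simpa using hy
  show 2 * deriv X (‖y‖ ^ 2) = 0
  rw [X'_zero (by nlinarith)]; simp

lemma D_nsq (i : Fin d) (y : E d) : D i (fun y : E d => ‖y‖ ^ 2) y = 2 * y i := by
  unfold D
  have h := (hasStrictFDerivAt_norm_sq y).hasFDerivAt
  rw [h.fderiv]
  simp [EuclideanSpace.inner_single_right]

lemma DΦ (i : Fin d) (y : E d) : D i Φ y = φ y * y i := by
  have h := D_comp (k := X) (f := fun y : E d => ‖y‖ ^ 2) X_sm (contDiff_norm_sq ℝ) i y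
  rw [D_nsq] at h
  show D i (fun y : E d => X (‖y‖ ^ 2)) y = _
  rw [h]
  show _ = 2 * deriv X (‖y‖ ^ 2) * y i
  ring

lemma φ_int (i : Fin d) : ∫ y : E d, φ y ≠ 0 := by
  have h : 0 < ∫ y : E d, -φ y := by
    obtain ⟨t, t0, ht⟩ := X'_ex
    refine φ_sm.continuous.neg.integral_pos_of_hasCompactSupport_nonneg_nonzero
      (x := √t • EuclideanSpace.single i (1 : ℝ)) ?_ ?_ ?_
    · exact φ_cs.comp_left (g := fun x : ℝ => -x) neg_zero
    · intro y
      show 0 ≤ -(2 * deriv X (‖y‖ ^ 2))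
      have := X'_np (‖y‖ ^ 2)
      linarith
    · show -(2 * deriv X (‖√t • EuclideanSpace.single i (1 : ℝ)‖ ^ 2)) ≠ 0
      have : ‖√t • EuclideanSpace.single i (1 : ℝ)‖ ^ 2 = t := by
        rw [norm_smul]
        simp [Real.sq_sqrt t0.le, abs_of_nonneg (Real.sqrt_nonneg t)]
      rw [this]
      linarith
  rw [integral_neg] at h
  linarith

lemma D_scale {w : E d → ℝ} (hw : ContDiff ℝ ∞ w) (r : ℝ) (i : Fin d) (y : E d) :
    D i (fun y => w (r • y)) y = r * D i w (r • y) := by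
  unfold D
  have h1 : HasFDerivAt (fun y : E d => r • y) (r • ContinuousLinearMap.id ℝ (E d)) y :=
    (hasFDerivAt_id y).const_smul r
  have h2 := (sdiff hw (r • y)).hasFDerivAt.comp y h1
  have h3 : fderiv ℝ (fun y => w (r • y)) y = _ := h2.fderiv
  rw [h3]
  simp

lemma scale_sm {w : E d → ℝ} (hw : ContDiff ℝ ∞ w) (r : ℝ) :
    ContDiff ℝ ∞ (fun y : E d => w (r • y)) := hw.comp (contDiff_id.const_smul r)

/-- the radial identity at scale `r` -/
lemma radial {u : E d → ℝ} (hu : ContDiff ℝ ∞ u) (eq : ∀ y, Lap u y = -u y) (i : Fin d) (r : ℝ) :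
    ∫ y : E d, φ y * ∑ j, y j * D j (D i u) (r • y) = -∫ y : E d, φ y * y i * u (r • y) := by
  have hv := D_sm hu i
  have e1 : ∀ y : E d, φ y * ∑ j, y j * D j (D i u) (r • y) =
      ∑ j, D j Φ y * D j (D i u) (r • y) := by
    intro y
    rw [Finset.mul_sum]
    refine Finset.sum_congr rfl fun j _ => ?_
    rw [DΦ]; ring
  simp only [e1]
  have c : ∀ j, Continuous fun y : E d => D j (D i u) (r • y) := fun j =>
    (scale_sm (D_sm hv j) r).continuous
  rw [integral_finsetSum _ fun j _ => cint (D_sm Φ_sm j).continuous (D_cs Φ_cs j) (c j)]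
  have e2 : ∀ j, ∫ y : E d, D j Φ y * D j (D i u) (r • y) =
      -∫ y : E d, Φ y * (r * D j (D j (D i u)) (r • y)) := by
    intro j
    have h := ibp Φ_sm Φ_cs (scale_sm (D_sm hv j) r) j
    have h2 : ∀ y : E d, D j (fun y => D j (D i u) (r • y)) y = r * D j (D j (D i u)) (r • y) :=
      fun y => D_scale (D_sm hv j) r j y
    simp only [h2] at h
    rw [h, neg_neg]
  simp only [e2]
  have c2 : ∀ j ∈ Finset.univ, Integrable fun y : E d =>
      Φ y * (r * D j (D j (D i u)) (r • y)) := fun j _ =>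
    cint Φ_sm.continuous Φ_cs (g := fun y : E d => r * D j (D j (D i u)) (r • y))
      (continuous_const.mul (scale_sm (D_sm (D_sm hv j) j) r).continuous)
  rw [Finset.sum_neg_distrib, ← integral_finsetSum _ c2]
  have e3 : ∀ y : E d, ∑ j, Φ y * (r * D j (D j (D i u)) (r • y)) =
      -(Φ y * D i (fun y => u (r • y)) y) := by
    intro y
    rw [← Finset.mul_sum, ← Finset.mul_sum]
    have h1 : ∑ j, D j (D j (D i u)) (r • y) = Lap (D i u) (r • y) := rfl
    have h2 : Lap (D i u) (r • y) = -D i u (r • y) := by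
      rw [Lap_D hu]
      have : Lap u = fun y => -u y := funext eq
      rw [this]
      show fderiv ℝ (fun y => -u y) _ _ = -fderiv ℝ u _ _
      rw [fderiv_fun_neg]; rfl
    rw [h1, h2, D_scale hu]
    ring
  simp only [e3]
  rw [integral_neg, neg_neg, ibp Φ_sm Φ_cs (scale_sm hu r) i]
  congr 2
  funext y
  rw [DΦ]

lemma lin_coord (L : E d →L[ℝ] ℝ) (y : E d) :
    L y = ∑ j, y j * L (EuclideanSpace.single j 1) := by
  have h3 : y = ∑ j, y j • (EuclideanSpace.single j (1 : ℝ) : E d) := by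
    have := (EuclideanSpace.basisFun (Fin d) ℝ).sum_repr y
    simpa using this.symm
  have h4 : L y = L (∑ j, y j • (EuclideanSpace.single j (1 : ℝ) : E d)) := congrArg L h3
  rw [h4, map_sum]
  refine Finset.sum_congr rfl fun j _ => ?_
  rw [map_smul, smul_eq_mul]

lemma seg {v : E d → ℝ} (hv : ContDiff ℝ ∞ v) (y : E d) :
    ∫ r in Set.Ioc (0 : ℝ) 1, ∑ j, y j * D j v (r • y) = v y - v 0 := by
  rw [← intervalIntegral.integral_of_le zero_le_one]
  have h := intervalIntegral.integral_eq_sub_of_hasDerivAt (a := 0) (b := 1)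
    (f := fun r : ℝ => v (r • y)) (f' := fun r => ∑ j, y j * D j v (r • y)) (fun r _ => ?_) ?_
  · rw [h, one_smul, zero_smul]
  · have h1 : HasDerivAt (fun r : ℝ => r • y) ((1 : ℝ) • y) r := (hasDerivAt_id r).smul_const y
    have h2 := (sdiff hv (r • y)).hasFDerivAt.comp_hasDerivAt r h1
    rw [one_smul] at h2
    have h4 : ∑ j, y j * D j v (r • y) = fderiv ℝ v (r • y) y := (lin_coord _ _).symm
    rw [h4]
    exact h2
  · refine Continuous.intervalIntegrable ?_ 0 1
    exact continuous_finsetSum _ fun j _ => continuous_const.mul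
      ((D_sm hv j).continuous.comp (continuous_id.smul continuous_const))

/-- joint integrability -/
lemma jint {f : ℝ → E d → ℝ} (cf : Continuous (Function.uncurry f))
    (sf : ∀ r, ∀ y ∉ Metric.closedBall (0 : E d) 2, f r y = 0) :
    Integrable (Function.uncurry f) ((volume.restrict (Set.Ioc (0 : ℝ) 1)).prod volume) := by
  have hK : IsCompact ((Set.Icc (0 : ℝ) 1) ×ˢ Metric.closedBall (0 : E d) 2) :=
    isCompact_Icc.prod (isCompact_closedBall _ _)
  have h1 : IntegrableOn (Function.uncurry f) ((Set.Icc (0 : ℝ) 1) ×ˢ Metric.closedBall (0 : E d) 2)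
      (volume.prod volume) := cf.continuousOn.integrableOn_compact hK
  have h1' := h1.mono_set (t := ((Set.Icc (0 : ℝ) 1) ×ˢ Metric.closedBall (0 : E d) 2))
    (s := ((Set.Ioc (0 : ℝ) 1) ×ˢ Metric.closedBall (0 : E d) 2))
    (Set.prod_mono Set.Ioc_subset_Icc_self subset_rfl)
  have h2 : IntegrableOn (Function.uncurry f) ((Set.Ioc (0 : ℝ) 1) ×ˢ (Set.univ : Set (E d)))
      (volume.prod volume) := by
    refine IntegrableOn.of_forall_sdiff_eq_zero h1' (measurableSet_Ioc.prod MeasurableSet.univ) ?_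
    rintro ⟨r, y⟩ ⟨⟨hr, _⟩, h⟩
    refine sf r y fun hy => h ⟨hr, hy⟩
  rw [IntegrableOn, ← Measure.prod_restrict, Measure.restrict_univ] at h2
  exact h2

/-- the representation of the derivative at the origin -/
lemma rep {u : E d → ℝ} (hu : ContDiff ℝ ∞ u) (eq : ∀ y, Lap u y = -u y) (i : Fin d) :
    (∫ y : E d, φ y) * D i u 0 = -(∫ y : E d, D i φ y * u y) +
      ∫ r in Set.Ioc (0 : ℝ) 1, ∫ y : E d, φ y * y i * u (r • y) := by
  have hv := D_sm hu i
  obtain ⟨f, hf⟩ : ∃ f : ℝ → E d → ℝ, f = fun r y => φ y * ∑ j, y j * D j (D i u) (r • y) :=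
    ⟨_, rfl⟩
  have cf : Continuous (Function.uncurry f) := by
    rw [hf]
    refine (φ_sm.continuous.comp continuous_snd).mul (continuous_finsetSum _ fun j _ => ?_)
    refine Continuous.mul ?_ ((D_sm hv j).continuous.comp (continuous_fst.smul continuous_snd))
    exact (EuclideanSpace.proj j).continuous.comp continuous_snd
  have sf : ∀ r, ∀ y ∉ Metric.closedBall (0 : E d) 2, f r y = 0 := by
    intro r y hy
    have h2 : 2 < ‖y‖ := by simpa using hy
    rw [hf]
    show 2 * deriv X (‖y‖ ^ 2) * _ = 0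
    rw [X'_zero (by nlinarith)]; simp
  have iF := jint cf sf
  have sw := integral_integral_swap iF
  have l1 : ∀ r, ∫ y, f r y = -∫ y : E d, φ y * y i * u (r • y) := fun r => by
    rw [hf]; exact radial hu eq i r
  have l2 : ∀ y, ∫ r in Set.Ioc (0 : ℝ) 1, f r y = φ y * D i u y - φ y * D i u 0 := by
    intro y
    rw [hf]
    show ∫ r in Set.Ioc (0 : ℝ) 1, φ y * ∑ j, y j * D j (D i u) (r • y) = _
    rw [integral_const_mul, seg hv y]
    ring
  simp only [l1, l2] at sw
  rw [integral_neg] at sw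
  have ia : Integrable fun y : E d => φ y * D i u y := cint φ_sm.continuous φ_cs hv.continuous
  have ib : Integrable fun y : E d => φ y * D i u 0 := cint φ_sm.continuous φ_cs continuous_const
  rw [integral_sub ia ib, integral_mul_const, ibp φ_sm φ_cs hu i] at sw
  linarith


/-- the dominating measure -/
def kap (i : Fin d) : Measure (E d) :=
  volume.withDensity (fun y => ‖D i φ y‖ₑ) +
    ((volume.restrict (Set.Ioc (0 : ℝ) 1)).prod
      (volume.withDensity fun y : E d => ‖φ y * y i‖ₑ)).map (fun p : ℝ × E d => p.1 • p.2)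

lemma c_coord (i : Fin d) : Continuous fun y : E d => y i := (EuclideanSpace.proj i).continuous

lemma i1 (i : Fin d) : Integrable (D i φ : E d → ℝ) :=
  (D_sm φ_sm i).continuous.integrable_of_hasCompactSupport (D_cs φ_cs i)

lemma i2 (i : Fin d) : Integrable (fun y : E d => φ y * y i) :=
  cint φ_sm.continuous φ_cs (c_coord i)

instance kap_fin (i : Fin d) : IsFiniteMeasure (kap i) := by
  have h1 : IsFiniteMeasure (volume.withDensity (fun y : E d => ‖D i φ y‖ₑ)) :=
    isFiniteMeasure_withDensity (i1 i).2.ne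
  have h2 : IsFiniteMeasure (volume.withDensity (fun y : E d => ‖φ y * y i‖ₑ)) :=
    isFiniteMeasure_withDensity (i2 i).2.ne
  unfold kap
  infer_instance

lemma kap_lint (i : Fin d) {u : E d → ℝ} (cu : Continuous u) :
    ∫⁻ z, ‖u z‖ₑ ∂(kap i) = (∫⁻ y, ‖D i φ y‖ₑ * ‖u y‖ₑ) +
      ∫⁻ r in Set.Ioc (0 : ℝ) 1, ∫⁻ y : E d, ‖φ y * y i‖ₑ * ‖u (r • y)‖ₑ := by
  have m1 : Measurable (fun y : E d => ‖D i φ y‖ₑ) := (D_sm φ_sm i).continuous.measurable.enorm
  have m2 : Measurable (fun y : E d => ‖φ y * y i‖ₑ) :=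
    (φ_sm.continuous.mul (c_coord i)).measurable.enorm
  have ms : Measurable fun p : ℝ × E d => p.1 • p.2 := (continuous_fst.smul continuous_snd).measurable
  have mu : Measurable fun z => ‖u z‖ₑ := cu.measurable.enorm
  unfold kap
  have ml : Measurable fun p : ℝ × E d => ‖u (p.1 • p.2)‖ₑ := mu.comp ms
  rw [lintegral_add_measure, lintegral_withDensity_eq_lintegral_mul _ m1 mu,
    lintegral_map mu ms, lintegral_prod _ ml.aemeasurable]
  congr 1
  refine lintegral_congr fun r => ?_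
  rw [lintegral_withDensity_eq_lintegral_mul _ m2]
  · rfl
  · exact (cu.comp (continuous_const_smul r)).measurable.enorm

lemma rep_le {u : E d → ℝ} (hu : ContDiff ℝ ∞ u) (eq : ∀ y, Lap u y = -u y) (i : Fin d) :
    ‖∫ y : E d, φ y‖ₑ * ‖D i u 0‖ₑ ≤ ∫⁻ z, ‖u z‖ₑ ∂(kap i) := by
  rw [← enorm_mul, rep hu eq i, kap_lint i hu.continuous]
  refine (enorm_add_le _ _).trans (add_le_add ?_ ?_)
  · rw [enorm_neg]
    refine (enorm_integral_le_lintegral_enorm _).trans (le_of_eq ?_)
    exact lintegral_congr fun y => enorm_mul _ _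
  · refine (enorm_integral_le_lintegral_enorm _).trans (lintegral_mono fun r => ?_)
    refine (enorm_integral_le_lintegral_enorm _).trans (le_of_eq ?_)
    exact lintegral_congr fun y => enorm_mul _ _

lemma cs2 {α : Type*} [MeasurableSpace α] (ν : Measure α) {f : α → ℝ≥0∞} (hf : Measurable f) :
    (∫⁻ z, f z ∂ν) ^ 2 ≤ ν Set.univ * ∫⁻ z, f z ^ 2 ∂ν := by
  have h := ENNReal.lintegral_mul_le_Lp_mul_Lq ν Real.HolderConjugate.two_two
    hf.aemeasurable (g := fun _ => 1) aemeasurable_const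
  have h1 : ∫⁻ z, (f * (fun _ => 1 : α → ℝ≥0∞)) z ∂ν = ∫⁻ z, f z ∂ν := by
    refine lintegral_congr fun z => ?_
    rw [Pi.mul_apply, mul_one]
  rw [h1] at h
  have h2 := ENNReal.rpow_le_rpow h (z := 2) (by norm_num)
  rw [ENNReal.mul_rpow_of_nonneg _ _ (by norm_num), ← ENNReal.rpow_mul, ← ENNReal.rpow_mul] at h2
  norm_num at h2
  rw [mul_comm]
  exact h2

lemma cs4 {α : Type*} [MeasurableSpace α] (ν : Measure α) {f : α → ℝ≥0∞} (hf : Measurable f) :
    (∫⁻ z, f z ∂ν) ^ 4 ≤ ν Set.univ ^ 3 * ∫⁻ z, f z ^ 4 ∂ν := by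
  have h1 := cs2 ν hf
  have h2 := cs2 ν (hf.pow_const 2)
  calc (∫⁻ z, f z ∂ν) ^ 4 = ((∫⁻ z, f z ∂ν) ^ 2) ^ 2 := by rw [← pow_mul]
    _ ≤ (ν Set.univ * ∫⁻ z, f z ^ 2 ∂ν) ^ 2 := by gcongr
    _ = ν Set.univ ^ 2 * (∫⁻ z, f z ^ 2 ∂ν) ^ 2 := mul_pow _ _ _
    _ ≤ ν Set.univ ^ 2 * (ν Set.univ * ∫⁻ z, (f z ^ 2) ^ 2 ∂ν) := by gcongr
    _ = ν Set.univ ^ 3 * ∫⁻ z, f z ^ 4 ∂ν := by
      rw [← mul_assoc, ← pow_succ]
      congr 1
      refine lintegral_congr fun z => ?_
      rw [← pow_mul]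

variable {S : Type*} [MeasurableSpace S] {P : Measure S} {τ : E d → S → S}

/-- stationary solutions of the Helmholtz equation with finite fourth moment -/
structure W4 (P : Measure S) (τ : E d → S → S) (G : S → E d → ℝ) : Prop where
  sf : SF τ G
  eq : ∀ s y, Lap (G s) y = -G s y
  l4 : Integrable (fun s => G s 0 ^ 4) P

lemma l4_iff {a : S → ℝ} (ma : Measurable a) :
    Integrable (fun s => a s ^ 4) P ↔ ∫⁻ s, ‖a s‖ₑ ^ 4 ∂P ≠ ⊤ := by
  have e : ∀ s, ‖a s ^ 4‖ₑ = ‖a s‖ₑ ^ 4 := fun s => enorm_pow _ _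
  constructor
  · intro h
    have := h.2
    unfold HasFiniteIntegral at this
    simp only [e] at this
    exact this.ne
  · intro h
    refine ⟨(ma.pow_const 4).aestronglyMeasurable, ?_⟩
    unfold HasFiniteIntegral
    simp only [e]
    exact lt_top_iff_ne_top.2 h

/-- derivatives of stationary waves with finite fourth moment -/
lemma W4.der [IsProbabilityMeasure P] (hτ : ∀ x, MeasurePreserving (τ x) P P)
    {G : S → E d → ℝ} (W : W4 P τ G) (i : Fin d) : W4 P τ (fun s => D i (G s)) := by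
  refine ⟨W.sf.der i, fun s y => ?_, ?_⟩
  · rw [Lap_D (W.sf.smooth s)]
    have : Lap (G s) = fun y => -G s y := funext (W.eq s)
    rw [this]
    show fderiv ℝ (fun y => -G s y) y _ = -fderiv ℝ (G s) y _
    rw [fderiv_fun_neg]; rfl
  · have mG := W.sf.meas 0
    have mD := (W.sf.der i).meas 0
    have f0 := (l4_iff mG).1 W.l4
    rw [l4_iff mD]
    have mj : Measurable fun p : S × E d => G p.1 p.2 := (joint W.sf).comp measurable_swap
    have h1 : ∀ s, (‖∫ y : E d, φ y‖ₑ * ‖D i (G s) 0‖ₑ) ^ 4 ≤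
        kap i Set.univ ^ 3 * ∫⁻ z, ‖G s z‖ₑ ^ 4 ∂(kap i) := fun s =>
      le_trans (by gcongr; exact rep_le (W.sf.smooth s) (W.eq s) i)
        (cs4 (kap i) (W.sf.smooth s).continuous.measurable.enorm)
    have h2 := lintegral_mono (μ := P) h1
    have mm : Measurable (Function.uncurry fun (s : S) (z : E d) => ‖G s z‖ₑ ^ 4) :=
      mj.enorm.pow_const 4
    have m5 : Measurable fun s => ∫⁻ z, ‖G s z‖ₑ ^ 4 ∂(kap i) := mm.lintegral_prod_right'
    rw [lintegral_const_mul _ m5, lintegral_lintegral_swap mm.aemeasurable] at h2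
    have h3 : ∀ z, ∫⁻ s, ‖G s z‖ₑ ^ 4 ∂P = ∫⁻ s, ‖G s 0‖ₑ ^ 4 ∂P := fun z =>
      st_lint hτ W.sf z (k := fun x => ‖x‖ₑ ^ 4) (measurable_id.enorm.pow_const 4)
    simp only [h3] at h2
    simp only [mul_pow] at h2
    rw [lintegral_const_mul _ (mD.enorm.pow_const 4), lintegral_const] at h2
    intro hcon
    rw [hcon, ENNReal.mul_top] at h2
    · have h4 : kap i Set.univ ≠ ⊤ := measure_ne_top _ _
      exact ENNReal.mul_ne_top (ENNReal.pow_ne_top h4) (ENNReal.mul_ne_top f0 h4) (top_le_iff.1 h2)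
    · have : ‖∫ y : E d, φ y‖ₑ ≠ 0 := by simpa using φ_int i
      exact pow_ne_zero _ this


end

end Pool.Agent.W2helper17.FM
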