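import Pool.Agent.W2helper17.FM.A
import Pool.Agent.W2helper17.FM.B

/-!
Solutions of the Helmholtz equation with constant energy density are plane waves (helper17).
-/

set_option autoImplicit false
set_option linter.unusedSectionVars false
open Filter Topology
open scoped ContDiff

namespace Pool.Agent.W2helper17.FM

open Pool.Agent.Y139.SW

noncomputable section

variable {d : ℕ}

lemma D_sub {f g : E d → ℝ} (hf : ContDiff ℝ ∞ f) (hg : ContDiff ℝ ∞ g) (i : Fin d) (y : E d) :
    D i (fun z => f z - g z) y = D i f y - D i g y := by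
  unfold D
  rw [fderiv_fun_sub (sdiff hf y) (sdiff hg y)]
  rfl

lemma D_eq_zero_of_eventually {f : E d → ℝ} {y : E d} (h : ∀ᶠ z in 𝓝 y, f z = 0) (i : Fin d) :
    D i f y = 0 := by
  have : f =ᶠ[𝓝 y] fun _ => 0 := h
  unfold D
  rw [this.fderiv_eq]; simp

lemma const_of_D {f : E d → ℝ} (hf : ContDiff ℝ ∞ f) (h : ∀ i y, D i f y = 0) (x y : E d) :
    f x = f y := by
  refine is_const_of_fderiv_eq_zero (𝕜 := ℝ) (hf.differentiable (by simp)) (fun z => ?_) x y
  ext v
  rw [lin_coord (fderiv ℝ f z) v]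
  simp only [zero_apply]
  exact Finset.sum_eq_zero fun j _ => by
    have := h j z
    unfold D at this
    rw [this, mul_zero]

section pw

variable {f : E d → ℝ} (hf : ContDiff ℝ ∞ f) (eq : ∀ y, Lap f y = -f y) {c : ℝ}
  (hc : ∀ y, f y ^ 2 + Q 1 f y = c)

lemma Qsum (y : E d) : Q 1 f y = ∑ i, D i f y * D i f y := by
  rw [Q_one]; exact Finset.sum_congr rfl fun i _ => sq _

include hf hc in
lemma st1 (k : Fin d) (y : E d) : f y * D k f y + ∑ i, D i (D k f) y * D i f y = 0 := by
  have h1 : (fun y => f y * f y + Q 1 f y) = fun _ => c := funext fun y => by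
    rw [← hc y]; ring
  have h2 := D_add (hf.mul hf) (Q_sm 1 hf) k y
  rw [h1] at h2
  have h3 : D k (fun _ : E d => c) y = 0 := by unfold D; simp
  have h4 : D k (fun z => f z * f z) y = D k f y * f y + f y * D k f y := D_mul hf hf k y
  have h5 : D k (Q 1 f) y = B 1 (D k f) f y + B 1 f (D k f) y := B_D 1 hf hf k y
  rw [h3, h4, h5, B_symm 1 f] at h2
  have h6 : B 1 (D k f) f y = ∑ i, D i (D k f) y * D i f y := rfl
  rw [h6] at h2
  linarith

include hf eq hc in
lemma st2 (y : E d) : Q 2 f y = f y ^ 2 := by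
  have h1 : (fun y => Q 0 f y + Q 1 f y) = fun _ => c := funext fun y => by
    rw [← hc y, Q_zero]
  have e1 : ∀ i, D i (fun y => Q 0 f y + Q 1 f y) = fun y => D i (Q 0 f) y + D i (Q 1 f) y :=
    fun i => funext fun y => D_add (Q_sm 0 hf) (Q_sm 1 hf) i y
  have h2 : Lap (fun y => Q 0 f y + Q 1 f y) y = Lap (Q 0 f) y + Lap (Q 1 f) y := by
    unfold Lap
    rw [← Finset.sum_add_distrib]
    refine Finset.sum_congr rfl fun i _ => ?_
    rw [e1]
    exact D_add (D_sm (Q_sm 0 hf) i) (D_sm (Q_sm 1 hf) i) i y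
  have h3 : Lap (fun _ : E d => c) y = 0 := by
    unfold Lap
    refine Finset.sum_eq_zero fun i _ => ?_
    have : D i (fun _ : E d => c) = fun _ => 0 := by funext z; unfold D; simp
    rw [this]; unfold D; simp
  rw [h1, h3, Lap_Q 0 hf eq, Lap_Q 1 hf eq, Q_zero] at h2
  linarith

lemma Q2sum (y : E d) : Q 2 f y = ∑ i, ∑ j, D j (D i f) y * D j (D i f) y := rfl

include hf eq hc in
lemma st3 (i j : Fin d) (y : E d) :
    Q 1 f y * D j (D i f) y = -(f y * (D i f y * D j f y)) := by
  have hQ := Qsum (f := f) y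
  have h1 : ∑ i, ∑ j, (Q 1 f y * D j (D i f) y + f y * (D i f y * D j f y)) ^ 2 = 0 := by
    have e1 : ∀ i j, (Q 1 f y * D j (D i f) y + f y * (D i f y * D j f y)) ^ 2 =
        Q 1 f y ^ 2 * (D j (D i f) y * D j (D i f) y) +
        2 * (Q 1 f y * f y) * (D i f y * (D j (D i f) y * D j f y)) +
        f y ^ 2 * ((D i f y * D i f y) * (D j f y * D j f y)) := fun i j => by ring
    simp only [e1, Finset.sum_add_distrib, ← Finset.mul_sum]
    have e2 : ∀ i, ∑ j, D j (D i f) y * D j f y = -(f y * D i f y) := fun i => by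
      have := st1 hf hc i y
      linarith
    simp only [e2]
    rw [← Q2sum, st2 hf eq hc y]
    have e3 : ∑ i, D i f y * -(f y * D i f y) = -(f y * Q 1 f y) := by
      rw [hQ, Finset.mul_sum, ← Finset.sum_neg_distrib]
      exact Finset.sum_congr rfl fun i _ => by ring
    rw [e3, ← hQ, ← Finset.sum_mul, ← hQ]
    ring
  have h2 := (Finset.sum_eq_zero_iff_of_nonneg (fun i _ => Finset.sum_nonneg fun j _ =>
    sq_nonneg _)).1 h1 i (Finset.mem_univ _)
  have h3 := (Finset.sum_eq_zero_iff_of_nonneg (fun j _ => sq_nonneg _)).1 h2 j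
    (Finset.mem_univ _)
  have h4 := pow_eq_zero_iff (two_ne_zero) |>.1 h3
  linarith

/-- the tensor -/
def T (f : E d → ℝ) (i j : Fin d) (y : E d) : ℝ := D i f y * D j f y - f y * D i (D j f) y

lemma T_sm (hf : ContDiff ℝ ∞ f) (i j : Fin d) : ContDiff ℝ ∞ (T f i j) :=
  ((D_sm hf i).mul (D_sm hf j)).sub (hf.mul (D_sm (D_sm hf j) i))

include hf hc in
lemma DQ1 (k : Fin d) (y : E d) : D k (Q 1 f) y = -(2 * f y * D k f y) := by
  have h1 := st1 hf hc k y
  have h5 : D k (Q 1 f) y = B 1 (D k f) f y + B 1 f (D k f) y := B_D 1 hf hf k y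
  rw [B_symm 1 f] at h5
  have h6 : B 1 (D k f) f y = ∑ i, D i (D k f) y * D i f y := rfl
  rw [h6] at h5
  linarith

include hf eq hc in
lemma st4 (k i j : Fin d) (y : E d) : Q 1 f y ^ 2 * D k (T f i j) y = 0 := by
  have hp := fun i => D_sm hf i
  have h1 : D k (T f i j) y = (D k (D i f) y * D j f y + D i f y * D k (D j f) y) -
      (D k f y * D i (D j f) y + f y * D k (D i (D j f)) y) := by
    have h2 := D_sub ((hp i).mul (hp j)) (hf.mul (D_sm (hp j) i)) k y
    have h3 : D k (fun z => D i f z * D j f z) y = _ := D_mul (hp i) (hp j) k y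
    have h4 : D k (fun z => f z * D i (D j f) z) y = _ := D_mul hf (D_sm (hp j) i) k y
    rw [h3, h4] at h2
    exact h2
  -- differentiate the identity of `st3`
  have h5 : (fun y => Q 1 f y * D i (D j f) y) = fun y => -(f y * (D j f y * D i f y)) :=
    funext fun y => st3 hf eq hc j i y
  have h6 : D k (fun y => Q 1 f y * D i (D j f) y) y =
      D k (Q 1 f) y * D i (D j f) y + Q 1 f y * D k (D i (D j f)) y :=
    D_mul (Q_sm 1 hf) (D_sm (hp j) i) k y
  have h7 : D k (fun y => -(f y * (D j f y * D i f y))) y =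
      -(D k f y * (D j f y * D i f y) + f y * (D k (D j f) y * D i f y +
        D j f y * D k (D i f) y)) := by
    rw [D_neg]
    have h8 : D k (fun z => f z * (D j f z * D i f z)) y =
        D k f y * (D j f y * D i f y) + f y * D k (fun z => D j f z * D i f z) y :=
      D_mul hf ((hp j).mul (hp i)) k y
    have h9 : D k (fun z => D j f z * D i f z) y = _ := D_mul (hp j) (hp i) k y
    show -D k (fun z => f z * (D j f z * D i f z)) y = _
    rw [h8, h9]
  rw [h5, h7, DQ1 hf hc] at h6
  have a1 := st3 hf eq hc i k y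
  have a2 := st3 hf eq hc j k y
  have a3 := st3 hf eq hc j i y
  rw [h1]
  -- `q² H_kij = - q p_k p_i p_j`
  have h10 : Q 1 f y ^ 2 * D k (D i (D j f)) y =
      -(Q 1 f y * (D k f y * (D i f y * D j f y))) := by
    have e : Q 1 f y ^ 2 * D k (D i (D j f)) y = Q 1 f y * (Q 1 f y * D k (D i (D j f)) y) := by
      ring
    have e2 : Q 1 f y * D k (D i (D j f)) y = 2 * f y * D k f y * D i (D j f) y -
        (D k f y * (D j f y * D i f y) + f y * (D k (D j f) y * D i f y +
        D j f y * D k (D i f) y)) := by linarith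
    rw [e, e2]
    have e3 : Q 1 f y * (2 * f y * D k f y * D i (D j f) y -
        (D k f y * (D j f y * D i f y) + f y * (D k (D j f) y * D i f y +
        D j f y * D k (D i f) y))) = 2 * f y * D k f y * (Q 1 f y * D i (D j f) y) -
        Q 1 f y * (D k f y * (D j f y * D i f y)) - f y * D i f y * (Q 1 f y * D k (D j f) y) -
        f y * D j f y * (Q 1 f y * D k (D i f) y) := by ring
    rw [e3, a1, a2, a3]
    ring
  have e4 : Q 1 f y ^ 2 * (D k (D i f) y * D j f y + D i f y * D k (D j f) y -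
      (D k f y * D i (D j f) y + f y * D k (D i (D j f)) y)) =
      Q 1 f y * D j f y * (Q 1 f y * D k (D i f) y) +
      Q 1 f y * D i f y * (Q 1 f y * D k (D j f) y) -
      Q 1 f y * D k f y * (Q 1 f y * D i (D j f) y) -
      f y * (Q 1 f y ^ 2 * D k (D i (D j f)) y) := by ring
  rw [e4, a1, a2, a3, h10]
  ring

include hf eq hc in
/-- the critical points have no interior -/
lemma crit (c0 : c ≠ 0) (y : E d) (h : ∀ᶠ z in 𝓝 y, Q 1 f z = 0) : False := by
  have h1 : ∀ i, ∀ᶠ z in 𝓝 y, D i f z = 0 := by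
    intro i
    filter_upwards [h] with z hz
    rw [Q_one] at hz
    have := (Finset.sum_eq_zero_iff_of_nonneg (fun i _ => sq_nonneg _)).1 hz i
      (Finset.mem_univ _)
    exact pow_eq_zero_iff (two_ne_zero) |>.1 this
  have h2 : Lap f y = 0 := Finset.sum_eq_zero fun i _ => D_eq_zero_of_eventually (h1 i) i
  have h3 : f y = 0 := by have := eq y; linarith
  have h4 := h.self_of_nhds
  apply c0
  rw [← hc y, h3, h4]; ring

include hf eq hc in
lemma st5 (c0 : c ≠ 0) (k i j : Fin d) (y : E d) : D k (T f i j) y = 0 := by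
  by_contra hne
  have ho : ∀ᶠ z in 𝓝 y, D k (T f i j) z ≠ 0 :=
    (D_sm (T_sm hf i j) k).continuous.continuousAt.eventually_ne hne
  refine crit hf eq hc c0 y ?_
  filter_upwards [ho] with z hz
  have := st4 hf eq hc k i j z
  rcases mul_eq_zero.1 this with h | h
  · exact pow_eq_zero_iff (two_ne_zero) |>.1 h
  · exact absurd h hz

include hf eq hc in
/-- the gradient has a constant direction -/
lemma st7 (c0 : c ≠ 0) : ∃ n : Fin d → ℝ, ∑ i, n i * n i = 1 ∧
    ∀ i y, D i f y = (∑ k, n k * D k f y) * n i := by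
  obtain ⟨x, hx⟩ : ∃ x, Q 1 f x ≠ 0 := by
    by_contra hcon
    push Not at hcon
    exact crit hf eq hc c0 0 (Eventually.of_forall hcon)
  have hq : 0 < Q 1 f x := lt_of_le_of_ne (Q_nn 1 f x) (Ne.symm hx)
  have hcc : ∀ i j y, Q 1 f y * T f i j y = c * (D i f y * D j f y) := by
    intro i j y
    have a3 := st3 hf eq hc j i y
    unfold T
    have : Q 1 f y * (D i f y * D j f y - f y * D i (D j f) y) =
        Q 1 f y * (D i f y * D j f y) - f y * (Q 1 f y * D i (D j f) y) := by ring
    rw [this, a3, ← hc y]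
    ring
  have hT : ∀ i j y, T f i j y = T f i j x := fun i j y =>
    const_of_D (T_sm hf i j) (fun k z => st5 hf eq hc c0 k i j z) y x
  refine ⟨fun i => D i f x / √(Q 1 f x), ?_, ?_⟩
  · have : ∀ i, D i f x / √(Q 1 f x) * (D i f x / √(Q 1 f x)) = D i f x * D i f x / Q 1 f x := by
      intro i
      rw [div_mul_div_comm, Real.mul_self_sqrt hq.le]
    simp only [this]
    rw [← Finset.sum_div, ← Qsum, div_self hx]
  · have key : ∀ i j y, Q 1 f y * (D i f x / √(Q 1 f x) * (D j f x / √(Q 1 f x))) =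
        D i f y * D j f y := by
      intro i j y
      rw [div_mul_div_comm, Real.mul_self_sqrt hq.le]
      have h1 := hcc i j y
      have h2 := hcc i j x
      rw [hT i j y] at h1
      have h3 : T f i j x = c * (D i f x * D j f x) / Q 1 f x := by
        rw [eq_div_iff hx, mul_comm]; exact h2
      rw [h3] at h1
      have h4 : c * (Q 1 f y * (D i f x * D j f x / Q 1 f x)) = c * (D i f y * D j f y) := by
        rw [← h1]; ring
      exact mul_left_cancel₀ c0 h4
    obtain ⟨n, hn⟩ : ∃ n : Fin d → ℝ, n = fun i => D i f x / √(Q 1 f x) := ⟨_, rfl⟩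
    have key' : ∀ i j y, Q 1 f y * (n i * n j) = D i f y * D j f y := by
      rw [hn]; exact key
    have hn1 : ∑ i, n i * n i = 1 := by
      rw [hn]
      have : ∀ i, D i f x / √(Q 1 f x) * (D i f x / √(Q 1 f x)) =
          D i f x * D i f x / Q 1 f x := by
        intro i
        rw [div_mul_div_comm, Real.mul_self_sqrt hq.le]
      simp only [this]
      rw [← Finset.sum_div, ← Qsum, div_self hx]
    intro i y
    show D i f y = (∑ k, (fun i => D i f x / √(Q 1 f x)) k * D k f y) *
      (fun i => D i f x / √(Q 1 f x)) i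
    rw [← hn]
    obtain ⟨σ, hσ⟩ : ∃ σ, σ = ∑ k, n k * D k f y := ⟨_, rfl⟩
    rw [← hσ]
    have s1 : ∀ i, D i f y * σ = Q 1 f y * n i := by
      intro i
      rw [hσ, Finset.mul_sum]
      have : ∀ k, D i f y * (n k * D k f y) = Q 1 f y * n i * (n k * n k) := by
        intro k
        have := key' i k y
        calc D i f y * (n k * D k f y) = n k * (D i f y * D k f y) := by ring
          _ = n k * (Q 1 f y * (n i * n k)) := by rw [this]
          _ = _ := by ring
      simp only [this]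
      rw [← Finset.mul_sum, hn1, mul_one]
    have s2 : σ * σ = Q 1 f y := by
      have : σ * σ = ∑ k, n k * (D k f y * σ) := by
        nth_rewrite 1 [hσ]
        rw [Finset.sum_mul]
        exact Finset.sum_congr rfl fun k _ => by ring
      rw [this]
      simp only [s1]
      have : ∀ k, n k * (Q 1 f y * n k) = Q 1 f y * (n k * n k) := fun k => by ring
      simp only [this]
      rw [← Finset.mul_sum, hn1, mul_one]
    by_cases h0 : σ = 0
    · have h1 : Q 1 f y = 0 := by rw [← s2, h0]; ring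
      have h2 := key' i i y
      rw [h1, zero_mul] at h2
      have h3 : D i f y = 0 := mul_self_eq_zero.1 h2.symm
      rw [h3, h0, zero_mul]
    · have h1 := s1 i
      rw [← s2] at h1
      have h2 : σ * (D i f y) = σ * (σ * n i) := by linarith
      exact mul_left_cancel₀ h0 h2

end pw

/-- smooth solutions of the Helmholtz equation with constant energy density are plane waves -/
theorem plane_wave {f : E d → ℝ} (hf : ContDiff ℝ ∞ f) (eq : ∀ y, Lap f y = -f y) {c : ℝ}
    (hc : ∀ y, f y ^ 2 + Q 1 f y = c) (hd : 0 < d) :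
    ∃ (w : E d) (a φ : ℝ), ‖w‖ = 1 ∧ 0 ≤ a ∧ ∀ y, f y = a * Real.cos (inner ℝ w y + φ) := by
  by_cases c0 : c = 0
  · refine ⟨EuclideanSpace.single ⟨0, hd⟩ 1, 0, 0, by simp, le_rfl, fun y => ?_⟩
    have h1 := hc y
    have h2 := Q_nn 1 f y
    rw [c0] at h1
    have h3 : f y ^ 2 = 0 := le_antisymm (by linarith) (sq_nonneg _)
    rw [zero_mul]
    exact pow_eq_zero_iff (two_ne_zero) |>.1 h3
  obtain ⟨n, hn1, hn⟩ := st7 hf eq hc c0
  obtain ⟨σ, hσ⟩ : ∃ σ : E d → ℝ, σ = fun y => ∑ k, n k * D k f y := ⟨_, rfl⟩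
  have hp : ∀ i y, D i f y = σ y * n i := by rw [hσ]; exact hn
  have sσ : ContDiff ℝ ∞ σ := by
    rw [hσ]; exact ContDiff.sum fun k _ => contDiff_const.mul (D_sm hf k)
  have Dc : ∀ (g : E d → ℝ), ContDiff ℝ ∞ g → ∀ (a : ℝ) (i : Fin d) (y : E d),
      D i (fun z => g z * a) y = D i g y * a := by
    intro g hg a i y
    have := D_mul (f := g) (g := fun _ => a) hg contDiff_const i y
    have h0 : D i (fun _ : E d => a) y = 0 := by unfold D; simp
    rw [h0, mul_zero, add_zero] at this
    exact this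
  have hH : ∀ i j y, D i (D j f) y = D i σ y * n j := by
    intro i j y
    have : D j f = fun z => σ z * n j := funext fun z => hp j z
    rw [this, Dc σ sσ]
  have hsym : ∀ i j y, D i σ y * n j = D j σ y * n i := by
    intro i j y
    rw [← hH, ← hH, D_comm hf]
  have htr : ∀ y, ∑ i, D i σ y * n i = -f y := by
    intro y
    have := eq y
    unfold Lap at this
    simp only [hH] at this
    exact this
  have hDσ : ∀ j y, D j σ y = -(f y * n j) := by
    intro j y
    have h1 : D j σ y = ∑ i, D j σ y * (n i * n i) := by rw [← Finset.mul_sum, hn1, mul_one]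
    have h2 : ∀ i, D j σ y * (n i * n i) = (D i σ y * n i) * n j := by
      intro i
      have := hsym j i y
      calc D j σ y * (n i * n i) = (D j σ y * n i) * n i := by ring
        _ = (D i σ y * n j) * n i := by rw [this]
        _ = _ := by ring
    rw [h1]
    simp only [h2]
    rw [← Finset.sum_mul, htr]; ring
  obtain ⟨w, hw⟩ : ∃ w : E d, w = WithLp.toLp 2 n := ⟨_, rfl⟩
  have wi : ∀ i, w i = n i := fun i => by rw [hw]
  obtain ⟨L, hL⟩ : ∃ L : E d → ℝ, L = fun y => inner ℝ w y := ⟨_, rfl⟩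
  have sL : ContDiff ℝ ∞ L := by rw [hL]; exact contDiff_const.inner ℝ contDiff_id
  have DL : ∀ i y, D i L y = n i := by
    intro i y
    have : L = fun y => (innerSL ℝ w) y := by rw [hL]; rfl
    unfold D
    rw [this, (innerSL ℝ w).fderiv]
    simp [EuclideanSpace.inner_single_right, wi]
  have scos : ContDiff ℝ ∞ fun y => Real.cos (L y) := Real.contDiff_cos.comp sL
  have ssin : ContDiff ℝ ∞ fun y => Real.sin (L y) := Real.contDiff_sin.comp sL
  have Dcos : ∀ i y, D i (fun y => Real.cos (L y)) y = -(Real.sin (L y) * n i) := by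
    intro i y
    rw [D_comp Real.contDiff_cos sL, DL, Real.deriv_cos]; ring
  have Dsin : ∀ i y, D i (fun y => Real.sin (L y)) y = Real.cos (L y) * n i := by
    intro i y
    rw [D_comp Real.contDiff_sin sL, DL, Real.deriv_sin]
  have hC : ∀ y, f y * Real.cos (L y) - σ y * Real.sin (L y) = f 0 := by
    intro y
    have h := const_of_D (f := fun y => f y * Real.cos (L y) - σ y * Real.sin (L y))
      ((hf.mul scos).sub (sσ.mul ssin)) (fun i z => ?_) y 0
    · have h0 : L 0 = 0 := by rw [hL]; simp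
      simp only [h0, Real.cos_zero, Real.sin_zero] at h
      linarith
    · rw [D_sub (hf.mul scos) (sσ.mul ssin), D_mul hf scos, D_mul sσ ssin, Dcos, Dsin, hDσ, hp]
      ring
  have hS : ∀ y, f y * Real.sin (L y) + σ y * Real.cos (L y) = σ 0 := by
    intro y
    have h := const_of_D (f := fun y => f y * Real.sin (L y) + σ y * Real.cos (L y))
      ((hf.mul ssin).add (sσ.mul scos)) (fun i z => ?_) y 0
    · have h0 : L 0 = 0 := by rw [hL]; simp
      simp only [h0, Real.cos_zero, Real.sin_zero] at h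
      linarith
    · rw [D_add (hf.mul ssin) (sσ.mul scos), D_mul hf ssin, D_mul sσ scos, Dcos, Dsin, hDσ, hp]
      ring
  have hfin : ∀ y, f y = f 0 * Real.cos (L y) + σ 0 * Real.sin (L y) := by
    intro y
    rw [← hC y, ← hS y]
    have := Real.sin_sq_add_cos_sq (L y)
    have e : (f y * Real.cos (L y) - σ y * Real.sin (L y)) * Real.cos (L y) +
        (f y * Real.sin (L y) + σ y * Real.cos (L y)) * Real.sin (L y) =
        f y * (Real.sin (L y) ^ 2 + Real.cos (L y) ^ 2) := by ring
    rw [e, this, mul_one]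
  obtain ⟨z, hz⟩ : ∃ z : ℂ, z = ⟨f 0, -σ 0⟩ := ⟨_, rfl⟩
  refine ⟨w, ‖z‖, z.arg, ?_, norm_nonneg _, fun y => ?_⟩
  · rw [EuclideanSpace.norm_eq]
    have : ∑ i, ‖w i‖ ^ 2 = 1 := by
      rw [← hn1]
      refine Finset.sum_congr rfl fun i _ => ?_
      rw [wi, Real.norm_eq_abs, sq_abs, sq]
    rw [this, Real.sqrt_one]
  · have h1 : ‖z‖ * Real.cos z.arg = f 0 := by rw [Complex.norm_mul_cos_arg, hz]
    have h2 : ‖z‖ * Real.sin z.arg = -σ 0 := by rw [Complex.norm_mul_sin_arg, hz]
    have h3 : (inner ℝ w y : ℝ) = L y := by rw [hL]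
    rw [h3, Real.cos_add, hfin y]
    have e : ‖z‖ * (Real.cos (L y) * Real.cos z.arg - Real.sin (L y) * Real.sin z.arg) =
        (‖z‖ * Real.cos z.arg) * Real.cos (L y) - (‖z‖ * Real.sin z.arg) * Real.sin (L y) := by
      ring
    rw [e, h1, h2]; ring

/-- the energy density of a plane wave is constant -/
lemma plane_wave_conv {f : E d → ℝ} {w : E d} {a φ : ℝ} (hw : ‖w‖ = 1)
    (h : ∀ y, f y = a * Real.cos (inner ℝ w y + φ)) (y : E d) : f y ^ 2 + Q 1 f y = a ^ 2 := by
  have e1 : f = fun y => a * Real.cos (inner ℝ w y + φ) := funext h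
  obtain ⟨L, hL⟩ : ∃ L : E d → ℝ, L = fun y => inner ℝ w y + φ := ⟨_, rfl⟩
  have DL : ∀ y, HasFDerivAt L (innerSL ℝ w) y := by
    intro y
    have : L = fun y => (innerSL ℝ w) y + φ := by rw [hL]; rfl
    rw [this]
    exact (innerSL ℝ w).hasFDerivAt.add_const φ
  have hD : ∀ i, D i f y = -(a * Real.sin (L y) * w i) := by
    intro i
    have h2 : HasFDerivAt (fun y => a * Real.cos (L y))
        (a • (-Real.sin (L y)) • (innerSL ℝ w : E d →L[ℝ] ℝ)) y :=
      ((Real.hasDerivAt_cos (L y)).comp_hasFDerivAt y (DL y)).const_mul a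
    have h3 : f = fun y => a * Real.cos (L y) := by rw [e1, hL]
    unfold D
    rw [h3, h2.fderiv]
    simp [EuclideanSpace.inner_single_right]
    ring
  rw [Q_one]
  simp only [hD]
  have h4 : ∑ i, w i ^ 2 = 1 := by
    have := EuclideanSpace.norm_eq w
    rw [hw] at this
    have h5 := congrArg (· ^ 2) this
    simp only [one_pow] at h5
    rw [Real.sq_sqrt (Finset.sum_nonneg fun i _ => sq_nonneg _)] at h5
    rw [h5]
    exact Finset.sum_congr rfl fun i _ => by rw [Real.norm_eq_abs, sq_abs]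
  have h6 : ∀ i, (-(a * Real.sin (L y) * w i)) ^ 2 = a ^ 2 * Real.sin (L y) ^ 2 * w i ^ 2 :=
    fun i => by ring
  simp only [h6]
  rw [← Finset.mul_sum, h4, mul_one, h y]
  have h7 : (inner ℝ w y : ℝ) + φ = L y := by rw [hL]
  rw [h7]
  have := Real.sin_sq_add_cos_sq (L y)
  have e : (a * Real.cos (L y)) ^ 2 + a ^ 2 * Real.sin (L y) ^ 2 =
    a ^ 2 * (Real.sin (L y) ^ 2 + Real.cos (L y) ^ 2) := by ring
  rw [e, this, mul_one]

end

end Pool.Agent.W2helper17.FM
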