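import Pool.Agent.W2helper17.FM.D
import Pool.Agent.W2helper17.FM.E
import Pool.Agent.Y139.SW.J

/-!
The fourth moment theorem on the space of waves (helper17).
-/

set_option autoImplicit false
set_option linter.unusedSectionVars false
open MeasureTheory Filter Topology
open scoped ContDiff ENNReal

namespace Pool.Agent.W2helper17.FM

open Pool.Agent.Y139.SW

noncomputable section

variable {d : ℕ}

/-- the σ-algebra of the translation invariant measurable sets -/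
@[reducible] def inv (d : ℕ) : MeasurableSpace (Sp d) where
  MeasurableSet' A := MeasurableSet A ∧ ∀ x, sh x ⁻¹' A = A
  measurableSet_empty := ⟨MeasurableSet.empty, fun _ => Set.preimage_empty⟩
  measurableSet_compl A hA := ⟨hA.1.compl, fun x => by rw [Set.preimage_compl, hA.2 x]⟩
  measurableSet_iUnion A hA := ⟨MeasurableSet.iUnion fun i => (hA i).1, fun x => by
    rw [Set.preimage_iUnion]
    exact Set.iUnion_congr fun i => (hA i).2 x⟩

lemma inv_le : inv d ≤ (inferInstance : MeasurableSpace (Sp d)) := fun _ hA => hA.1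

lemma inv_fun {g : Sp d → ℝ} (hg : Measurable[inv d] g) (x : E d) (f : Sp d) :
    g (sh x f) = g f := by
  have h : MeasurableSet[inv d] (g ⁻¹' {g f}) := hg (measurableSet_singleton _)
  have h1 : f ∈ sh x ⁻¹' (g ⁻¹' {g f}) := by rw [h.2 x]; rfl
  exact h1

variable {μ : Measure (Sp d)} [IsProbabilityMeasure μ]

lemma W4_of (h4 : Integrable (fun f : Sp d => f.1 0 ^ 4) μ) :
    W4 μ sh (fun f : Sp d => f.1) :=
  ⟨⟨fun y => (measurable_pi_apply y).comp measurable_subtype_coe, fun f => f.2.1,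
    fun _ _ _ => rfl⟩, fun f y => f.2.2 y, h4⟩

/-- the local mass -/
def mass (μ : Measure (Sp d)) : Sp d → ℝ := μ[fun f : Sp d => f.1 0 ^ 2 | inv d]

lemma mass_me : Measurable[inv d] (mass μ) := stronglyMeasurable_condExp.measurable

section

variable (h4 : Integrable (fun f : Sp d => f.1 0 ^ 4) μ)

include h4 in
lemma sq_l2 : MemLp (fun f : Sp d => f.1 0 ^ 2) 2 μ := by
  have W := W4_of h4
  have m0 : Measurable fun f : Sp d => f.1 0 ^ 2 := (W.sf.meas 0).pow_const 2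
  rw [memLp_two_iff_integrable_sq m0.aestronglyMeasurable]
  refine h4.congr (ae_of_all _ fun f => ?_)
  show f.1 0 ^ 4 = (f.1 0 ^ 2) ^ 2
  ring

include h4 in
lemma mass_l2 : MemLp (mass μ) 2 μ := (sq_l2 h4).condExp (by norm_num)

include h4 in
lemma mass_eq {k : Sp d → ℝ} (mk : Measurable[inv d] k) (k2 : MemLp k 2 μ) :
    ∫ f, f.1 0 ^ 2 * k f ∂μ = ∫ f, mass μ f * k f ∂μ := by
  have h1 : Integrable ((fun f : Sp d => f.1 0 ^ 2) * k) μ := (sq_l2 h4).integrable_mul k2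
  have h2 := condExp_mul_of_stronglyMeasurable_right (m := inv d) (μ := μ) (mk.stronglyMeasurable)
    h1 ((sq_l2 h4).integrable (by norm_num))
  have h3 := integral_condExp (μ := μ) (inv_le (d := d)) (f := (fun f : Sp d => f.1 0 ^ 2) * k)
  have h4' : ∫ f, f.1 0 ^ 2 * k f ∂μ = ∫ f, ((fun f : Sp d => f.1 0 ^ 2) * k) f ∂μ := rfl
  rw [h4', ← h3, integral_congr_ae h2]
  rfl

include h4 in
lemma mass_int : ∫ f, mass μ f ∂μ = ∫ f, f.1 0 ^ 2 ∂μ := integral_condExp inv_le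

variable (hμ : ∀ x : E d, MeasurePreserving (sh x) μ μ)

include h4 hμ in
lemma core' : ∫ f : Sp d, (f.1 0 ^ 2 + Q 1 f.1 0 - 2 * mass μ f) ^ 2 ∂μ ≤
    8 / 3 * (∫ f : Sp d, f.1 0 ^ 4 ∂μ) - 4 * ∫ f, mass μ f ^ 2 ∂μ := by
  have h := core hμ (W4_of h4) (m := mass μ) (mass_me.mono inv_le le_rfl)
    (fun x f => inv_fun mass_me x f) (mass_l2 h4) (mass_eq h4 mass_me (mass_l2 h4))
  have e1 : ∀ f : Sp d, (f.1 0 ^ 2 + Q 1 f.1 0 - 2 * mass μ f) ^ 2 =
      (U (fun f : Sp d => f.1) (mass μ) 0 f 0 + U (fun f : Sp d => f.1) (mass μ) 1 f 0) ^ 2 := by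
    intro f
    show _ = (Q 0 f.1 0 - mass μ f + (Q 1 f.1 0 - mass μ f)) ^ 2
    rw [Q_zero]; ring
  have e2 : ∀ f : Sp d, mass μ f ^ 2 = mass μ f * mass μ f := fun f => sq _
  simp only [e1, e2]
  exact h

include h4 hμ in
lemma var' : ∫ f : Sp d, (Q 1 f.1 0 - mass μ f) ^ 2 ∂μ ≤
    ∫ f : Sp d, (f.1 0 ^ 2 - mass μ f) ^ 2 ∂μ := by
  have mm := mass_me.mono inv_le le_rfl (f := mass μ)
  have h := p2_le hμ (W4_of h4) (m := mass μ) mm
    (fun x f => inv_fun mass_me x f) (mass_l2 h4) (mass_eq h4 mass_me (mass_l2 h4))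
  have h1 := U_p hμ (W4_of h4) (m := mass μ) mm
    (fun x f => inv_fun mass_me x f) (mass_l2 h4) 1 1
  rw [← h1] at h
  unfold p at h
  have e1 : ∀ f : Sp d, (Q 1 f.1 0 - mass μ f) ^ 2 =
      U (fun f : Sp d => f.1) (mass μ) 1 f 0 * U (fun f : Sp d => f.1) (mass μ) 1 f 0 :=
    fun f => sq _
  have e2 : ∀ f : Sp d, (f.1 0 ^ 2 - mass μ f) ^ 2 =
      U (fun f : Sp d => f.1) (mass μ) 0 f 0 * U (fun f : Sp d => f.1) (mass μ) 0 f 0 := by
    intro f
    show _ = (Q 0 f.1 0 - mass μ f) * (Q 0 f.1 0 - mass μ f)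
    rw [Q_zero]; ring
  simp only [e1, e2]
  exact h

include h4 in
lemma mass_sq : (∫ f : Sp d, f.1 0 ^ 2 ∂μ) ^ 2 ≤ ∫ f, mass μ f ^ 2 ∂μ := by
  have h := cs_int (P := μ) (mass_l2 h4) (memLp_const (1 : ℝ))
  simp only [mul_one, integral_const, probReal_univ, smul_eq_mul] at h
  rw [mass_int h4] at h
  have e2 : ∀ f : Sp d, mass μ f ^ 2 = mass μ f * mass μ f := fun f => sq _
  simp only [e2]
  exact h

include h4 hμ in
/-- from the origin to all points -/
lemma everywhere {m : Sp d → ℝ} (mm : Measurable[inv d] m)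
    (h0 : ∫ f : Sp d, (f.1 0 ^ 2 + Q 1 f.1 0 - 2 * m f) ^ 2 ∂μ = 0)
    (hi : Integrable (fun f : Sp d => (f.1 0 ^ 2 + Q 1 f.1 0 - 2 * m f) ^ 2) μ) :
    ∀ᵐ f : Sp d ∂μ, ∀ y, f.1 y ^ 2 + Q 1 f.1 y = 2 * m f := by
  have W := W4_of h4
  obtain ⟨H, hH⟩ : ∃ H : Sp d → E d → ℝ, H = fun f y => f.1 y ^ 2 + Q 1 f.1 y - 2 * m f :=
    ⟨_, rfl⟩
  have sH : SF sh H := by
    rw [hH]
    refine ⟨fun y => ?_, fun f => ?_, fun x f y => ?_⟩
    · exact (((W.sf.meas y).pow_const 2).add ((sf_Q 1 W.sf).meas y)).sub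
        (measurable_const.mul (mm.mono inv_le le_rfl))
    · exact ((f.2.1.pow 2).add (Q_sm 1 f.2.1)).sub contDiff_const
    · show (sh x f).1 y ^ 2 + Q 1 (sh x f).1 y - 2 * m (sh x f) = _
      rw [inv_fun mm, (sf_Q 1 W.sf).cov]
      rfl
  have hy : ∀ y, ∀ᵐ f ∂μ, H f y = 0 := by
    intro y
    have h1 : ∫ f, H f y ^ 2 ∂μ = 0 := by
      rw [st_int hμ sH y (k := fun x => x ^ 2) (measurable_id.pow_const 2), hH]
      exact h0
    have hi0 : Integrable (fun f => (fun f y => H f y * H f y) f 0) μ := by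
      refine hi.congr (ae_of_all _ fun f => ?_)
      show _ = H f 0 * H f 0
      rw [hH]; exact sq _
    have h2 : Integrable (fun f => H f y ^ 2) μ := by
      have := st_integrable hμ (sH.mul sH) y hi0
      refine this.congr (ae_of_all _ fun f => ?_)
      exact (sq _).symm
    have h3 := (integral_eq_zero_iff_of_nonneg (fun f => sq_nonneg (H f y)) h2).1 h1
    filter_upwards [h3] with f hf
    exact pow_eq_zero_iff (two_ne_zero) |>.1 hf
  have hall := ae_all_iff.2 fun n => hy (TopologicalSpace.denseSeq (E d) n)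
  filter_upwards [hall] with f hf y
  have hc : Continuous (H f) := (sH.smooth f).continuous
  have hz : H f = fun _ => 0 := by
    refine Continuous.ext_on (TopologicalSpace.denseRange_denseSeq (E d)) hc continuous_const ?_
    rintro _ ⟨n, rfl⟩
    exact hf n
  have := congrFun hz y
  rw [hH] at this
  have h5 : f.1 y ^ 2 + Q 1 f.1 y - 2 * m f = 0 := this
  linarith

include h4 in
lemma core_int {m : Sp d → ℝ} (m2 : MemLp m 2 μ) (hμ : ∀ x : E d, MeasurePreserving (sh x) μ μ) :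
    Integrable (fun f : Sp d => (f.1 0 ^ 2 + Q 1 f.1 0 - 2 * m f) ^ 2) μ := by
  have W := W4_of h4
  have h1 : MemLp (fun f : Sp d => f.1 0 ^ 2 + Q 1 f.1 0 - 2 * m f) 2 μ :=
    ((sq_l2 h4).add (Q_l2 hμ 1 W)).sub (m2.const_mul 2)
  exact (memLp_two_iff_integrable_sq h1.1).1 h1

/-- plane waves -/
def PW (a : ℝ) (f : E d → ℝ) : Prop :=
  ∃ (w : E d) (φ : ℝ), ‖w‖ = 1 ∧ ∀ y, f y = a * Real.cos (inner ℝ w y + φ)

include h4 hμ in
lemma pw_fwd (hd : 0 < d) (h : ∫ f : Sp d, f.1 0 ^ 4 ∂μ = 3 / 2 * ∫ f, mass μ f ^ 2 ∂μ) :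
    ∀ᵐ f : Sp d ∂μ, ∃ a, PW a f.1 := by
  have h1 := core' h4 hμ
  have h2 : ∫ f : Sp d, (f.1 0 ^ 2 + Q 1 f.1 0 - 2 * mass μ f) ^ 2 ∂μ = 0 := by
    refine le_antisymm ?_ (integral_nonneg fun f => sq_nonneg _)
    rw [h] at h1
    linarith
  filter_upwards [everywhere h4 hμ mass_me h2 (core_int h4 (mass_l2 h4) hμ)] with f hf
  obtain ⟨w, a, φ, hw, _, hfa⟩ := plane_wave f.2.1 f.2.2 hf hd
  exact ⟨a, w, φ, hw, hfa⟩

include h4 hμ in
lemma pw_bwd (h : ∀ᵐ f : Sp d ∂μ, ∃ a, PW a f.1) :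
    ∫ f : Sp d, f.1 0 ^ 4 ∂μ = 3 / 2 * ∫ f, mass μ f ^ 2 ∂μ := by
  have W := W4_of h4
  -- the invariant set of the waves with constant energy density
  obtain ⟨H, hH⟩ : ∃ H : Sp d → E d → ℝ, H = fun f y => f.1 y ^ 2 + Q 1 f.1 y := ⟨_, rfl⟩
  have sH : SF sh H := by
    rw [hH]
    refine ⟨fun y => ?_, fun f => ?_, fun x f y => ?_⟩
    · exact (((W.sf.meas y).pow_const 2).add ((sf_Q 1 W.sf).meas y))
    · exact ((f.2.1.pow 2).add (Q_sm 1 f.2.1))
    · show (sh x f).1 y ^ 2 + Q 1 (sh x f).1 y = _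
      rw [(sf_Q 1 W.sf).cov]
      rfl
  obtain ⟨A, hA⟩ : ∃ A : Set (Sp d), A = {f | ∀ y, H f y = H f 0} := ⟨_, rfl⟩
  have mA : MeasurableSet A := by
    have : A = ⋂ n, {f | H f (TopologicalSpace.denseSeq (E d) n) = H f 0} := by
      rw [hA]
      ext f
      simp only [Set.mem_ofPred_eq, Set.mem_iInter]
      constructor
      · intro h n; exact h _
      · intro h y
        have hz : H f = fun _ => H f 0 := by
          refine Continuous.ext_on (TopologicalSpace.denseRange_denseSeq (E d))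
            (sH.smooth f).continuous continuous_const ?_
          rintro _ ⟨n, rfl⟩
          exact h n
        exact congrFun hz y
    rw [this]
    exact MeasurableSet.iInter fun n => measurableSet_eq_fun (sH.meas _) (sH.meas _)
  have iA : ∀ x, sh x ⁻¹' A = A := by
    intro x
    rw [hA]
    ext f
    simp only [Set.mem_preimage, Set.mem_ofPred_eq]
    have e : ∀ y, H (sh x f) y = H f (y + x) := fun y => sH.cov x f y
    simp only [e]
    constructor
    · intro h y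
      have h1 := h (y - x)
      have h2 := h (0 - x)
      rw [sub_add_cancel] at h1 h2
      rw [h1, h2]
    · intro h y
      rw [h (y + x), h (0 + x)]
  obtain ⟨k, hk⟩ : ∃ k : Sp d → ℝ, k = A.indicator fun f => H f 0 := ⟨_, rfl⟩
  have mk : Measurable[inv d] k := by
    intro B mB
    refine ⟨?_, fun x => ?_⟩
    · rw [hk]; exact ((sH.meas 0).indicator mA) mB
    · ext f
      simp only [Set.mem_preimage]
      have : k (sh x f) = k f := by
        rw [hk]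
        have hx : sh x f ∈ A ↔ f ∈ A := by
          have := iA x
          exact Set.ext_iff.1 this f
        by_cases hf : f ∈ A
        · rw [Set.indicator_of_mem hf, Set.indicator_of_mem (hx.2 hf)]
          have e : H (sh x f) 0 = H f (0 + x) := sH.cov x f 0
          rw [e]
          rw [hA] at hf
          exact hf _
        · rw [Set.indicator_of_notMem hf, Set.indicator_of_notMem (fun h => hf (hx.1 h))]
      rw [this]
  have H2 : MemLp (fun f => H f 0) 2 μ := by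
    rw [hH]; exact (sq_l2 h4).add (Q_l2 hμ 1 W)
  have k2 : MemLp k 2 μ := by rw [hk]; exact H2.indicator mA
  have hae : ∀ᵐ f ∂μ, k f = H f 0 := by
    filter_upwards [h] with f hf
    obtain ⟨a, w, φ, hw, hfa⟩ := hf
    have hmem : f ∈ A := by
      rw [hA, hH]
      intro y
      show f.1 y ^ 2 + Q 1 f.1 y = f.1 0 ^ 2 + Q 1 f.1 0
      rw [plane_wave_conv hw hfa, plane_wave_conv hw hfa]
    rw [hk, Set.indicator_of_mem hmem]
  have m2 := mass_l2 h4
  obtain ⟨l, hl⟩ : ∃ l : Sp d → ℝ, l = fun f => k f - 2 * mass μ f := ⟨_, rfl⟩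
  have ml : Measurable[inv d] l := by
    rw [hl]
    exact Measurable.sub mk (Measurable.const_mul mass_me 2)
  have l2 : MemLp l 2 μ := by rw [hl]; exact k2.sub (m2.const_mul 2)
  have i0 : Integrable (fun f : Sp d => f.1 0 ^ 2 * l f) μ := (sq_l2 h4).integrable_mul l2
  have i1 : Integrable (fun f : Sp d => Q 1 f.1 0 * l f) μ := (Q_l2 hμ 1 W).integrable_mul l2
  have im : Integrable (fun f : Sp d => mass μ f * l f) μ := m2.integrable_mul l2
  have ik : Integrable (fun f : Sp d => k f * l f) μ := k2.integrable_mul l2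
  have e1 : ∫ f, k f * l f ∂μ = 2 * ∫ f, mass μ f * l f ∂μ := by
    have a1 : ∫ f, k f * l f ∂μ = ∫ f, (f.1 0 ^ 2 * l f + Q 1 f.1 0 * l f) ∂μ := by
      refine integral_congr_ae ?_
      filter_upwards [hae] with f hf
      rw [hf, hH]; ring
    have a2 := Q_inv hμ W (ml.mono inv_le le_rfl) (fun x f => inv_fun ml x f) l2 1
    rw [a1, integral_add i0 i1, a2, mass_eq h4 ml l2]
    ring
  have e2 : ∫ f, l f * l f ∂μ = 0 := by
    have : ∀ f, l f * l f = k f * l f - 2 * (mass μ f * l f) := by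
      intro f
      nth_rewrite 1 [hl]
      ring
    simp only [this]
    rw [integral_sub ik (im.const_mul 2), integral_const_mul, e1, sub_self]
  have e3 : ∀ᵐ f ∂μ, l f = 0 := by
    have := (integral_eq_zero_iff_of_nonneg (fun f => mul_self_nonneg (l f))
      (l2.integrable_mul l2)).1 e2
    filter_upwards [this] with f hf
    exact mul_self_eq_zero.1 hf
  have h := core_conv hμ W (m := mass μ) (mass_me.mono inv_le le_rfl)
    (fun x f => inv_fun mass_me x f) m2 (mass_eq h4 mass_me m2) (by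
      filter_upwards [hae, e3] with f h1 h2
      show Q 0 f.1 0 - mass μ f + (Q 1 f.1 0 - mass μ f) = 0
      rw [hl] at h2
      have h3 : k f - 2 * mass μ f = 0 := h2
      rw [h1, hH] at h3
      have h5 : f.1 0 ^ 2 + Q 1 f.1 0 - 2 * mass μ f = 0 := h3
      rw [Q_zero]; linarith)
  have e4 : ∀ f : Sp d, mass μ f ^ 2 = mass μ f * mass μ f := fun f => sq _
  simp only [e4]
  linarith

include h4 hμ in
lemma pw2 (hd : 0 < d) : ∫ f : Sp d, f.1 0 ^ 4 ∂μ = 3 / 2 * (∫ f : Sp d, f.1 0 ^ 2 ∂μ) ^ 2 ↔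
    ∀ᵐ f : Sp d ∂μ, PW (√(2 * ∫ g : Sp d, g.1 0 ^ 2 ∂μ)) f.1 := by
  obtain ⟨M, hM⟩ : ∃ M, M = ∫ g : Sp d, g.1 0 ^ 2 ∂μ := ⟨_, rfl⟩
  have M0 : 0 ≤ M := by rw [hM]; exact integral_nonneg fun g => sq_nonneg _
  rw [← hM]
  have m2 := mass_l2 h4
  constructor
  · intro h
    have h1 := core' h4 hμ
    have h2 := mass_sq h4
    rw [h] at h1
    rw [← hM] at h2
    have h3 : 0 ≤ ∫ f : Sp d, (f.1 0 ^ 2 + Q 1 f.1 0 - 2 * mass μ f) ^ 2 ∂μ :=
      integral_nonneg fun f => sq_nonneg _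
    have h4' : ∫ f : Sp d, (f.1 0 ^ 2 + Q 1 f.1 0 - 2 * mass μ f) ^ 2 ∂μ = 0 := by linarith
    have h5 : ∫ f, mass μ f ^ 2 ∂μ = M ^ 2 := by linarith
    have h6 : ∫ f, (mass μ f - M) ^ 2 ∂μ = 0 := by
      have i1 : Integrable (fun f => mass μ f ^ 2) μ := (memLp_two_iff_integrable_sq m2.1).1 m2
      have i2 : Integrable (fun f => -(2 * M) * mass μ f) μ :=
        (m2.integrable (by norm_num)).const_mul _
      have e : ∀ f, (mass μ f - M) ^ 2 = mass μ f ^ 2 + -(2 * M) * mass μ f + M ^ 2 :=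
        fun f => by ring
      simp only [e]
      rw [int3 i1 i2 (integrable_const _), integral_const_mul, mass_int h4, h5, ← hM]
      simp
      ring
    have h7 : ∀ᵐ f ∂μ, mass μ f = M := by
      have hl : MemLp (fun f => mass μ f - M) 2 μ := m2.sub (memLp_const M)
      have := (integral_eq_zero_iff_of_nonneg (fun f => sq_nonneg (mass μ f - M))
        ((memLp_two_iff_integrable_sq hl.1).1 hl)).1 h6
      filter_upwards [this] with f hf
      have : mass μ f - M = 0 := pow_eq_zero_iff (two_ne_zero) |>.1 hf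
      linarith
    filter_upwards [everywhere h4 hμ mass_me h4' (core_int h4 m2 hμ), h7] with f hf hmf
    obtain ⟨w, a, φ, hw, ha, hfa⟩ := plane_wave f.2.1 f.2.2 hf hd
    refine ⟨w, φ, hw, ?_⟩
    have h8 : a ^ 2 = 2 * M := by
      rw [← plane_wave_conv hw hfa 0, hf 0, hmf]
    have h9 : √(2 * M) = a := by rw [← h8, Real.sqrt_sq ha]
    rw [h9]
    exact hfa
  · intro h
    have h1 := core_conv hμ (W4_of h4) (m := fun _ => M) measurable_const
      (fun _ _ => rfl) (memLp_const M) (by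
        rw [integral_mul_const, ← hM]; simp) (by
        filter_upwards [h] with f hf
        obtain ⟨w, φ, hw, hfa⟩ := hf
        show Q 0 f.1 0 - M + (Q 1 f.1 0 - M) = 0
        have := plane_wave_conv hw hfa 0
        rw [Real.sq_sqrt (by linarith)] at this
        rw [Q_zero]; linarith)
    simp at h1
    linarith

end

/-- `|∇f|²` -/
def gsq (f : E d → ℝ) (y : E d) : ℝ := ∑ i, fderiv ℝ f y (EuclideanSpace.single i 1) ^ 2

/-- plane waves in the space of waves -/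
def PW' (a : ℝ) (f : Sp d) : Prop :=
  ∃ (w : E d) (φ : ℝ), ‖w‖ = 1 ∧ ∀ y, f.1 y = a * Real.cos (inner ℝ w y + φ)

theorem final (hd : 1 ≤ d) (μ : Measure (Sp d)) (pμ : IsProbabilityMeasure μ)
    (hμ : ∀ x : E d, μ.map (sh x) = μ)
    (h4 : Integrable (fun f : Sp d => f.1 0 ^ 4) μ) :
    (Integrable (fun f => mass μ f ^ 2) μ ∧
      Integrable (fun f : Sp d => gsq f.1 0 ^ 2) μ) ∧
    ∫ f : Sp d, (f.1 0 ^ 2 + gsq f.1 0 - 2 * mass μ f) ^ 2 ∂μ ≤
      8 / 3 * (∫ f : Sp d, f.1 0 ^ 4 ∂μ - 3 / 2 * ∫ f, mass μ f ^ 2 ∂μ) ∧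
    (∫ f : Sp d, f.1 0 ^ 2 ∂μ) ^ 2 ≤ ∫ f, mass μ f ^ 2 ∂μ ∧
    ∫ f : Sp d, (gsq f.1 0 - mass μ f) ^ 2 ∂μ ≤
      ∫ f : Sp d, (f.1 0 ^ 2 - mass μ f) ^ 2 ∂μ ∧
    (∫ f : Sp d, f.1 0 ^ 4 ∂μ = 3 / 2 * ∫ f, mass μ f ^ 2 ∂μ ↔
      ∀ᵐ f ∂μ, ∃ a, PW' a f) ∧
    (∫ f : Sp d, f.1 0 ^ 4 ∂μ = 3 / 2 * (∫ f : Sp d, f.1 0 ^ 2 ∂μ) ^ 2 ↔
      ∀ᵐ f ∂μ, PW' (√(2 * ∫ g : Sp d, g.1 0 ^ 2 ∂μ)) f) := by
  have hμ' : ∀ x, MeasurePreserving (sh (d := d) x) μ μ := fun x => ⟨sh_me x, hμ x⟩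
  have hg : ∀ f : Sp d, Q 1 f.1 0 = gsq f.1 0 := fun f => Q_one f.1 0
  have m2 : MemLp (mass μ) 2 μ := mass_l2 h4
  have q2 : MemLp (fun f : Sp d => gsq f.1 0) 2 μ :=
    (Q_l2 hμ' 1 (W4_of h4)).ae_eq (ae_of_all _ hg)
  have c1 := core' h4 hμ'
  have c3 := var' h4 hμ'
  simp only [hg] at c1 c3
  refine ⟨⟨(memLp_two_iff_integrable_sq m2.1).1 m2, (memLp_two_iff_integrable_sq q2.1).1 q2⟩,
    ?_, mass_sq h4, c3, ⟨pw_fwd h4 hμ' hd, pw_bwd h4 hμ'⟩, pw2 h4 hμ' hd⟩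
  linarith

end

end Pool.Agent.W2helper17.FM
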