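import Pool.Agent.Y139.SW.B

/-!
Fourth moments of stationary waves in `ℝ^d`: the quantities `|∇^j f|²` (helper17).
-/

set_option autoImplicit false
open MeasureTheory Filter Topology
open scoped ContDiff ENNReal

namespace Pool.Agent.W2helper17.FM

open Pool.Agent.Y139.SW

noncomputable section

variable {d : ℕ}

/-- the inner product of the `j`-th derivatives -/
def B : ℕ → (E d → ℝ) → (E d → ℝ) → E d → ℝ
  | 0, f, g => fun y => f y * g y
  | (j + 1), f, g => fun y => ∑ i, B j (D i f) (D i g) y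

/-- `|∇^j f|²` -/
def Q (j : ℕ) (f : E d → ℝ) (y : E d) : ℝ := B j f f y

lemma Q_zero (f : E d → ℝ) (y : E d) : Q 0 f y = f y ^ 2 := by
  simp only [Q, B]; ring

lemma Q_succ (j : ℕ) (f : E d → ℝ) (y : E d) : Q (j + 1) f y = ∑ i, Q j (D i f) y := rfl

lemma Q_nn (j : ℕ) : ∀ (f : E d → ℝ) (y : E d), 0 ≤ Q j f y := by
  induction j with
  | zero => intro f y; rw [Q_zero]; positivity
  | succ j ih => intro f y; rw [Q_succ]; exact Finset.sum_nonneg fun i _ => ih _ _

lemma Q_one (f : E d → ℝ) (y : E d) : Q 1 f y = ∑ i, D i f y ^ 2 := by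
  rw [Q_succ]
  exact Finset.sum_congr rfl fun i _ => Q_zero _ _

lemma B_sm (j : ℕ) : ∀ {f g : E d → ℝ}, ContDiff ℝ ∞ f → ContDiff ℝ ∞ g →
    ContDiff ℝ ∞ (B j f g) := by
  induction j with
  | zero => intro f g hf hg; exact hf.mul hg
  | succ j ih =>
    intro f g hf hg
    exact ContDiff.sum fun i _ => ih (D_sm hf i) (D_sm hg i)

lemma B_symm (j : ℕ) : ∀ (f g : E d → ℝ) (y : E d), B j f g y = B j g f y := by
  induction j with
  | zero => intro f g y; exact mul_comm _ _
  | succ j ih => intro f g y; exact Finset.sum_congr rfl fun i _ => ih _ _ _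

lemma D_add {f g : E d → ℝ} (hf : ContDiff ℝ ∞ f) (hg : ContDiff ℝ ∞ g) (i : Fin d) (y : E d) :
    D i (fun z => f z + g z) y = D i f y + D i g y := by
  unfold D
  rw [fderiv_fun_add (sdiff hf y) (sdiff hg y)]
  rfl

lemma D_comm' {f : E d → ℝ} (hf : ContDiff ℝ ∞ f) (i j : Fin d) :
    D i (D j f) = D j (D i f) := funext fun z => D_comm hf i j z

lemma B_D (j : ℕ) : ∀ {f g : E d → ℝ}, ContDiff ℝ ∞ f → ContDiff ℝ ∞ g → ∀ (i : Fin d) (y : E d),
    D i (B j f g) y = B j (D i f) g y + B j f (D i g) y := by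
  induction j with
  | zero =>
    intro f g hf hg i y
    exact D_mul hf hg i y
  | succ j ih =>
    intro f g hf hg i y
    have h1 : D i (B (j + 1) f g) y = ∑ k, D i (B j (D k f) (D k g)) y :=
      D_sum Finset.univ (fun k => B_sm j (D_sm hf k) (D_sm hg k)) i y
    rw [h1]
    show _ = (∑ k, B j (D k (D i f)) (D k g) y) + ∑ k, B j (D k f) (D k (D i g)) y
    rw [← Finset.sum_add_distrib]
    refine Finset.sum_congr rfl fun k _ => ?_
    rw [ih (D_sm hf k) (D_sm hg k) i y, D_comm' hf i k, D_comm' hg i k]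

lemma D_neg (f : E d → ℝ) (i : Fin d) : D i (fun y => -f y) = fun y => -D i f y := by
  funext y
  show fderiv ℝ (fun y => -f y) y _ = -fderiv ℝ f y _
  rw [fderiv_fun_neg]; rfl

lemma B_neg (j : ℕ) : ∀ (f g : E d → ℝ) (y : E d), B j (fun y => -f y) g y = -B j f g y := by
  induction j with
  | zero => intro f g y; exact neg_mul _ _
  | succ j ih =>
    intro f g y
    show ∑ i, B j (D i fun y => -f y) (D i g) y = -∑ i, B j (D i f) (D i g) y
    rw [← Finset.sum_neg_distrib]
    refine Finset.sum_congr rfl fun i _ => ?_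
    rw [D_neg, ih]

lemma B_sum (j : ℕ) : ∀ (f : Fin d → E d → ℝ) (g : E d → ℝ), (∀ i, ContDiff ℝ ∞ (f i)) →
    ∀ y : E d, ∑ i, B j (f i) g y = B j (fun z => ∑ i, f i z) g y := by
  induction j with
  | zero =>
    intro f g hf y
    show ∑ i, f i y * g y = (∑ i, f i y) * g y
    rw [Finset.sum_mul]
  | succ j ih =>
    intro f g hf y
    show ∑ i, ∑ k, B j (D k (f i)) (D k g) y = ∑ k, B j (D k fun z => ∑ i, f i z) (D k g) y
    rw [Finset.sum_comm]
    refine Finset.sum_congr rfl fun k _ => ?_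
    have h1 : (D k fun z => ∑ i, f i z) = fun z => ∑ i, D k (f i) z :=
      funext fun z => D_sum Finset.univ hf k z
    rw [ih (fun i => D k (f i)) (D k g) (fun i => D_sm (hf i) k) y, h1]

lemma Lap_B (j : ℕ) {f g : E d → ℝ} (hf : ContDiff ℝ ∞ f) (hg : ContDiff ℝ ∞ g) (y : E d) :
    Lap (B j f g) y = B j (Lap f) g y + 2 * B (j + 1) f g y + B j f (Lap g) y := by
  have h1 : ∀ i, D i (D i (B j f g)) y =
      B j (D i (D i f)) g y + 2 * B j (D i f) (D i g) y + B j f (D i (D i g)) y := by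
    intro i
    have e : D i (B j f g) = fun z => B j (D i f) g z + B j f (D i g) z :=
      funext fun z => B_D j hf hg i z
    rw [e]
    have e2 : D i (fun z => B j (D i f) g z + B j f (D i g) z) y =
        D i (B j (D i f) g) y + D i (B j f (D i g)) y :=
      D_add (B_sm j (D_sm hf i) hg) (B_sm j hf (D_sm hg i)) i y
    rw [e2, B_D j (D_sm hf i) hg, B_D j hf (D_sm hg i)]
    ring
  unfold Lap
  simp only [h1]
  rw [Finset.sum_add_distrib, Finset.sum_add_distrib, ← Finset.mul_sum]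
  have h2 : ∑ i, B j (D i (D i f)) g y = B j (fun z => ∑ i, D i (D i f) z) g y :=
    B_sum j (fun i => D i (D i f)) g (fun i => D_sm (D_sm hf i) i) y
  have h3 : ∑ i, B j f (D i (D i g)) y = B j f (fun z => ∑ i, D i (D i g) z) y := by
    rw [B_symm j f]
    rw [← B_sum j (fun i => D i (D i g)) f (fun i => D_sm (D_sm hg i) i) y]
    exact Finset.sum_congr rfl fun i _ => B_symm _ _ _ _
  rw [h2, h3]
  rfl

lemma Q_sm (j : ℕ) {f : E d → ℝ} (hf : ContDiff ℝ ∞ f) : ContDiff ℝ ∞ (Q j f) := B_sm j hf hf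

/-- the basic relation -/
lemma Lap_Q (j : ℕ) {f : E d → ℝ} (hf : ContDiff ℝ ∞ f) (eq : ∀ y, Lap f y = -f y) (y : E d) :
    Lap (Q j f) y = 2 * Q (j + 1) f y - 2 * Q j f y := by
  have e : Lap f = fun y => -f y := funext eq
  have h := Lap_B j hf hf y
  rw [e, B_neg, B_symm j f (fun y => -f y), B_neg] at h
  show Lap (B j f f) y = 2 * B (j + 1) f f y - 2 * B j f f y
  rw [h]; ring

/-- the moment sequence lemma -/
lemma seq_le {p : ℕ → ℝ} {K : ℝ} (h0 : ∀ i, 0 ≤ p (2 * i))
    (ha : ∀ i, p (2 * i + 2) ^ 2 ≤ p (2 * i) * p (2 * i + 4))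
    (hb : ∀ i, p (2 * i + 2) + p (2 * i + 3) ≤ p (2 * i) + p (2 * i + 1))
    (hc : ∀ n, -K ≤ p n) : p 2 ≤ p 0 := by
  by_contra hcon
  push Not at hcon
  have hp0 : 0 < p 0 := by
    rcases (h0 0).lt_or_eq with h | h
    · simpa using h
    · exfalso
      have := ha 0
      simp only [mul_zero, zero_add] at this h
      rw [← h, zero_mul] at this
      nlinarith
  obtain ⟨θ, hθ⟩ : ∃ θ, θ = p 2 / p 0 := ⟨_, rfl⟩
  have hθ1 : 1 < θ := by rw [hθ, one_lt_div hp0]; exact hcon
  have key : ∀ i, 0 < p (2 * i) ∧ θ * p (2 * i) ≤ p (2 * i + 2) := by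
    intro i
    induction i with
    | zero =>
      refine ⟨by simpa using hp0, ?_⟩
      simp only [mul_zero, zero_add]
      rw [hθ, div_mul_cancel₀ _ hp0.ne']
    | succ i ih =>
      obtain ⟨i1, i2⟩ := ih
      have e1 : 2 * (i + 1) = 2 * i + 2 := by ring
      rw [e1]
      have i3 : 0 < p (2 * i + 2) := by nlinarith
      refine ⟨i3, ?_⟩
      have h4 := ha i
      have : 2 * i + 2 + 2 = 2 * i + 4 := by ring
      rw [this]
      by_contra hc2
      push Not at hc2
      have h5 : p (2 * i) * p (2 * i + 4) < p (2 * i) * (θ * p (2 * i + 2)) :=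
        mul_lt_mul_of_pos_left hc2 i1
      have h6 : p (2 * i) * (θ * p (2 * i + 2)) ≤ p (2 * i + 2) * p (2 * i + 2) := by
        have := mul_le_mul_of_nonneg_right i2 i3.le
        linarith
      nlinarith
  have grow : ∀ i, θ ^ i * p 0 ≤ p (2 * i) := by
    intro i
    induction i with
    | zero => simp
    | succ i ih =>
      have e1 : 2 * (i + 1) = 2 * i + 2 := by ring
      rw [e1]
      refine le_trans ?_ (key i).2
      rw [pow_succ]
      nlinarith
  have up : ∀ i, p (2 * i) + p (2 * i + 1) ≤ p 0 + p 1 := by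
    intro i
    induction i with
    | zero => simp
    | succ i ih =>
      have e1 : 2 * (i + 1) = 2 * i + 2 := by ring
      rw [e1]
      exact (hb i).trans ih
  obtain ⟨n, hn⟩ := pow_unbounded_of_one_lt ((p 0 + p 1 + K) / p 0) hθ1
  rw [div_lt_iff₀ hp0] at hn
  have h7 := grow n
  have h8 := up n
  have h9 := hc (2 * n + 1)
  linarith

end

end Pool.Agent.W2helper17.FM
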