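import Pool.Agent.W2helper17.FM.A
import Pool.Agent.W2helper17.FM.B

/-!
The fourth moment inequality for stationary waves in `ℝ^d` (helper17).
-/

set_option autoImplicit false
set_option linter.unusedSectionVars false
open MeasureTheory Filter Topology
open scoped ContDiff ENNReal

namespace Pool.Agent.W2helper17.FM

open Pool.Agent.Y139.SW

noncomputable section

variable {d : ℕ} {S : Type*} [MeasurableSpace S] {P : Measure S} {τ : E d → S → S}

lemma sf_sum {ι : Type*} (t : Finset ι) {f : ι → S → E d → ℝ} (h : ∀ i, SF τ (f i)) :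
    SF τ (fun s y => ∑ i ∈ t, f i s y) :=
  ⟨fun y => Finset.measurable_fun_sum _ fun i _ => (h i).meas y,
    fun s => ContDiff.sum fun i _ => (h i).smooth s,
    fun x s y => Finset.sum_congr rfl fun i _ => (h i).cov x s y⟩

lemma sf_add {G H : S → E d → ℝ} (h : SF τ G) (h' : SF τ H) : SF τ (fun s y => G s y + H s y) :=
  ⟨fun y => (h.meas y).add (h'.meas y), fun s => (h.smooth s).add (h'.smooth s),
    fun x s y => by rw [h.cov, h'.cov]⟩

lemma sf_B (j : ℕ) : ∀ {G H : S → E d → ℝ}, SF τ G → SF τ H → SF τ (fun s => B j (G s) (H s)) := by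
  induction j with
  | zero => intro G H h h'; exact h.mul h'
  | succ j ih => intro G H h h'; exact sf_sum _ fun i => ih (h.der i) (h'.der i)

lemma sf_Q (j : ℕ) {G : S → E d → ℝ} (h : SF τ G) : SF τ (fun s => Q j (G s)) := sf_B j h h

lemma int3 {a b c : S → ℝ} (ia : Integrable a P) (ib : Integrable b P) (ic : Integrable c P) :
    ∫ s, (a s + b s + c s) ∂P = (∫ s, a s ∂P) + (∫ s, b s ∂P) + ∫ s, c s ∂P := by
  have h1 : ∫ s, (a s + b s + c s) ∂P = (∫ s, (a s + b s) ∂P) + ∫ s, c s ∂P :=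
    integral_add (ia.add ib) ic
  rw [h1, integral_add ia ib]

lemma mul_44 {a b : S → ℝ} (ma : Measurable a) (mb : Measurable b)
    (ia : Integrable (fun s => a s ^ 4) P) (ib : Integrable (fun s => b s ^ 4) P) :
    MemLp (fun s => a s * b s) 2 P := by
  have mab : Measurable fun s => a s * b s := ma.mul mb
  rw [memLp_two_iff_integrable_sq mab.aestronglyMeasurable]
  refine Integrable.mono' (ia.add ib) (mab.pow_const 2).aestronglyMeasurable
    (ae_of_all _ fun s => ?_)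
  show ‖(a s * b s) ^ 2‖ ≤ a s ^ 4 + b s ^ 4
  rw [Real.norm_eq_abs, abs_of_nonneg (sq_nonneg _)]
  nlinarith [sq_nonneg (a s ^ 2 - b s ^ 2), sq_nonneg (a s ^ 2), sq_nonneg (b s ^ 2)]

lemma B_l2 [IsProbabilityMeasure P] (hτ : ∀ x, MeasurePreserving (τ x) P P) (j : ℕ) :
    ∀ {G H : S → E d → ℝ}, W4 P τ G → W4 P τ H → MemLp (fun s => B j (G s) (H s) 0) 2 P := by
  induction j with
  | zero =>
    intro G H h h'
    exact mul_44 (h.sf.meas 0) (h'.sf.meas 0) h.l4 h'.l4
  | succ j ih =>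
    intro G H h h'
    exact memLp_finsetSum _ fun i _ => ih (h.der hτ i) (h'.der hτ i)

lemma Q_l2 [IsProbabilityMeasure P] (hτ : ∀ x, MeasurePreserving (τ x) P P) (j : ℕ)
    {G : S → E d → ℝ} (h : W4 P τ G) : MemLp (fun s => Q j (G s) 0) 2 P := B_l2 hτ j h h

lemma DQ_l2 [IsProbabilityMeasure P] (hτ : ∀ x, MeasurePreserving (τ x) P P) (j : ℕ)
    {G : S → E d → ℝ} (h : W4 P τ G) (i : Fin d) : MemLp (fun s => D i (Q j (G s)) 0) 2 P := by
  have e : ∀ s, D i (Q j (G s)) 0 = B j (D i (G s)) (G s) 0 + B j (G s) (D i (G s)) 0 := fun s =>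
    B_D j (h.sf.smooth s) (h.sf.smooth s) i 0
  simp only [e]
  exact (B_l2 hτ j (h.der hτ i) h).add (B_l2 hτ j h (h.der hτ i))

lemma DDQ_l2 [IsProbabilityMeasure P] (hτ : ∀ x, MeasurePreserving (τ x) P P) (j : ℕ)
    {G : S → E d → ℝ} (h : W4 P τ G) (i : Fin d) :
    MemLp (fun s => D i (D i (Q j (G s))) 0) 2 P := by
  have hi := h.der hτ i
  have hii := hi.der hτ i
  have e : ∀ s, D i (D i (Q j (G s))) 0 = (B j (D i (D i (G s))) (G s) 0 +
      B j (D i (G s)) (D i (G s)) 0) + (B j (D i (G s)) (D i (G s)) 0 +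
      B j (G s) (D i (D i (G s))) 0) := by
    intro s
    have hs := h.sf.smooth s
    have e1 : D i (Q j (G s)) = fun y => B j (D i (G s)) (G s) y + B j (G s) (D i (G s)) y :=
      funext fun y => B_D j hs hs i y
    rw [e1, D_add (B_sm j (D_sm hs i) hs) (B_sm j hs (D_sm hs i)),
      B_D j (D_sm hs i) hs, B_D j hs (D_sm hs i)]
  simp only [e]
  exact ((B_l2 hτ j hii h).add (B_l2 hτ j hi hi)).add ((B_l2 hτ j hi hi).add (B_l2 hτ j h hii))

/-- integration by parts -/
lemma ibpE [IsProbabilityMeasure P] (hτ : ∀ x, MeasurePreserving (τ x) P P)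
    {U V : S → E d → ℝ} (hU : SF τ U) (hV : SF τ V) (i : Fin d)
    (u0 : MemLp (fun s => U s 0) 2 P) (u1 : MemLp (fun s => D i (U s) 0) 2 P)
    (v0 : MemLp (fun s => V s 0) 2 P) (v1 : MemLp (fun s => D i (V s) 0) 2 P) :
    ∫ s, D i (U s) 0 * V s 0 ∂P = -∫ s, U s 0 * D i (V s) 0 ∂P := by
  have e1 : ∀ s, D i (fun y => U s y * V s y) 0 = D i (U s) 0 * V s 0 + U s 0 * D i (V s) 0 :=
    fun s => D_mul (hU.smooth s) (hV.smooth s) i 0
  have a1 : Integrable (fun s => D i (U s) 0 * V s 0) P := u1.integrable_mul v0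
  have a2 : Integrable (fun s => U s 0 * D i (V s) 0) P := u0.integrable_mul v1
  have h := div0 hτ (hU.mul hV) i (u0.integrable_mul v0) (by
    simp only [e1]
    exact a1.add a2)
  simp only [e1] at h
  rw [integral_add a1 a2] at h
  linarith

/-- the centred quantities -/
def U (G : S → E d → ℝ) (m : S → ℝ) (j : ℕ) (s : S) (y : E d) : ℝ := Q j (G s) y - m s

section main

variable [IsProbabilityMeasure P] (hτ : ∀ x, MeasurePreserving (τ x) P P)
  {G : S → E d → ℝ} (W : W4 P τ G) {m : S → ℝ} (mm : Measurable m) (im : ∀ x s, m (τ x s) = m s)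
  (m2 : MemLp m 2 P)

include W mm im in
lemma sf_U (j : ℕ) : SF τ (U G m j) :=
  ⟨fun y => ((sf_Q j W.sf).meas y).sub mm, fun s => (Q_sm j (W.sf.smooth s)).sub contDiff_const,
    fun x s y => by
      show Q j (G (τ x s)) y - m (τ x s) = Q j (G s) (y + x) - m s
      rw [im, (sf_Q j W.sf).cov]⟩

lemma D_U (m : S → ℝ) (j : ℕ) (s : S) (i : Fin d) : D i (U G m j s) = D i (Q j (G s)) := by
  funext y
  show fderiv ℝ (fun y => Q j (G s) y - m s) y _ = fderiv ℝ (Q j (G s)) y _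
  rw [fderiv_sub_const]

include hτ W m2 in
lemma U_l2 (j : ℕ) : MemLp (fun s => U G m j s 0) 2 P := (Q_l2 hτ j W).sub m2

/-- the energy form -/
def e (P : Measure S) (G : S → E d → ℝ) (i j : ℕ) : ℝ :=
  1 / 2 * ∑ k, ∫ s, D k (Q i (G s)) 0 * D k (Q j (G s)) 0 ∂P

lemma e_symm (i j : ℕ) : e P G i j = e P G j i := by
  unfold e
  simp only [mul_comm (D _ (Q i _) 0)]

include hτ W mm im m2 in
lemma U_step (i j : ℕ) : ∫ s, U G m (i + 1) s 0 * U G m j s 0 ∂P =
    (∫ s, U G m i s 0 * U G m j s 0 ∂P) - e P G i j := by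
  have h1 : ∀ s, U G m (i + 1) s 0 = U G m i s 0 + 1 / 2 * ∑ k, D k (D k (Q i (G s))) 0 := by
    intro s
    have := Lap_Q i (W.sf.smooth s) (W.eq s) 0
    unfold Lap at this
    show Q (i + 1) (G s) 0 - m s = Q i (G s) 0 - m s + _
    rw [this]; ring
  have h2 : ∀ s, U G m (i + 1) s 0 * U G m j s 0 = U G m i s 0 * U G m j s 0 +
      1 / 2 * ∑ k, D k (D k (Q i (G s))) 0 * U G m j s 0 := by
    intro s
    rw [h1, ← Finset.sum_mul]; ring
  have uj := U_l2 hτ W m2 j
  have a1 : Integrable (fun s => U G m i s 0 * U G m j s 0) P := (U_l2 hτ W m2 i).integrable_mul uj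
  have a2 : ∀ k ∈ Finset.univ, Integrable (fun s => D k (D k (Q i (G s))) 0 * U G m j s 0) P :=
    fun k _ => (DDQ_l2 hτ i W k).integrable_mul uj
  simp only [h2]
  rw [integral_add a1 ((integrable_finsetSum _ a2).const_mul _), integral_const_mul,
    integral_finsetSum _ a2]
  have h3 : ∀ k, ∫ s, D k (D k (Q i (G s))) 0 * U G m j s 0 ∂P =
      -∫ s, D k (Q i (G s)) 0 * D k (Q j (G s)) 0 ∂P := by
    intro k
    have := ibpE hτ ((sf_Q i W.sf).der k) (sf_U W mm im j) k (DQ_l2 hτ i W k) (DDQ_l2 hτ i W k) uj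
      (by simp only [D_U]; exact DQ_l2 hτ j W k)
    simp only [D_U] at this
    exact this
  simp only [h3]
  rw [Finset.sum_neg_distrib]
  unfold e
  ring

/-- the moment sequence -/
def p (P : Measure S) (G : S → E d → ℝ) (m : S → ℝ) (n : ℕ) : ℝ :=
  ∫ s, U G m n s 0 * U G m 0 s 0 ∂P

include hτ W mm im m2 in
lemma U_shift (i j : ℕ) : ∫ s, U G m (i + 1) s 0 * U G m j s 0 ∂P =
    ∫ s, U G m i s 0 * U G m (j + 1) s 0 ∂P := by
  have h1 := U_step hτ W mm im m2 i j
  have h2 := U_step hτ W mm im m2 j i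
  have h3 : ∫ s, U G m i s 0 * U G m (j + 1) s 0 ∂P = ∫ s, U G m (j + 1) s 0 * U G m i s 0 ∂P := by
    simp only [mul_comm (U G m i _ 0)]
  have h4 : ∫ s, U G m i s 0 * U G m j s 0 ∂P = ∫ s, U G m j s 0 * U G m i s 0 ∂P := by
    simp only [mul_comm (U G m i _ 0)]
  rw [h1, h3, h2, h4, e_symm]

include hτ W mm im m2 in
lemma U_p (i j : ℕ) : ∫ s, U G m i s 0 * U G m j s 0 ∂P = p P G m (i + j) := by
  induction j generalizing i with
  | zero => rfl
  | succ j ih =>
    rw [← U_shift hτ W mm im m2 i j, ih (i + 1)]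
    congr 1; ring

include hτ W mm im m2 in
lemma e_p (i j : ℕ) : e P G i j = p P G m (i + j) - p P G m (i + j + 1) := by
  have h := U_step hτ W mm im m2 i j
  rw [U_p hτ W mm im m2, U_p hτ W mm im m2] at h
  have : i + 1 + j = i + j + 1 := by ring
  rw [this] at h
  linarith

include hτ W mm im m2 in
lemma p_even (i : ℕ) : 0 ≤ p P G m (2 * i) := by
  have h := U_p hτ W mm im m2 i i
  rw [two_mul, ← h]
  exact integral_nonneg fun s => mul_self_nonneg _

lemma cs_int {a b : S → ℝ} (ha : MemLp a 2 P) (hb : MemLp b 2 P) :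
    (∫ s, a s * b s ∂P) ^ 2 ≤ (∫ s, a s * a s ∂P) * ∫ s, b s * b s ∂P := by
  have iaa := ha.integrable_mul ha
  have iab := ha.integrable_mul hb
  have ibb := hb.integrable_mul hb
  have key : ∀ t : ℝ, 0 ≤ (∫ s, b s * b s ∂P) * (t * t) + (2 * ∫ s, a s * b s ∂P) * t +
      ∫ s, a s * a s ∂P := by
    intro t
    have h1 : 0 ≤ ∫ s, (a s + t * b s) * (a s + t * b s) ∂P :=
      integral_nonneg fun s => mul_self_nonneg _
    have h2 : ∀ s, (a s + t * b s) * (a s + t * b s) =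
        a s * a s + (2 * t) * (a s * b s) + (t * t) * (b s * b s) := fun s => by ring
    simp only [h2] at h1
    have i1 : Integrable (fun s => a s * a s) P := iaa
    have i2 : Integrable (fun s => (2 * t) * (a s * b s)) P := iab.const_mul _
    have i3 : Integrable (fun s => (t * t) * (b s * b s)) P := ibb.const_mul _
    rw [int3 i1 i2 i3, integral_const_mul, integral_const_mul] at h1
    linarith
  have h := discrim_le_zero key
  unfold discrim at h
  nlinarith

include hτ W mm im m2 in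
lemma p_cs (i : ℕ) : p P G m (2 * i + 2) ^ 2 ≤ p P G m (2 * i) * p P G m (2 * i + 4) := by
  have h := cs_int (P := P) (U_l2 hτ W m2 i) (U_l2 hτ W m2 (i + 2))
  rw [U_p hτ W mm im m2, U_p hτ W mm im m2, U_p hτ W mm im m2] at h
  have e1 : i + (i + 2) = 2 * i + 2 := by ring
  have e2 : i + i = 2 * i := by ring
  have e3 : i + 2 + (i + 2) = 2 * i + 4 := by ring
  rwa [e1, e2, e3] at h

include hτ W mm im m2 in
lemma p_mono (i : ℕ) : p P G m (2 * i + 2) + p P G m (2 * i + 3) ≤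
    p P G m (2 * i) + p P G m (2 * i + 1) := by
  have h1 : 0 ≤ 1 / 2 * ∑ k, ∫ s, (D k (Q i (G s)) 0 + D k (Q (i + 1) (G s)) 0) *
      (D k (Q i (G s)) 0 + D k (Q (i + 1) (G s)) 0) ∂P :=
    mul_nonneg (by norm_num) (Finset.sum_nonneg fun k _ => integral_nonneg fun s =>
      mul_self_nonneg _)
  have h2 : ∀ k, ∫ s, (D k (Q i (G s)) 0 + D k (Q (i + 1) (G s)) 0) *
      (D k (Q i (G s)) 0 + D k (Q (i + 1) (G s)) 0) ∂P =
      (∫ s, D k (Q i (G s)) 0 * D k (Q i (G s)) 0 ∂P) +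
      2 * (∫ s, D k (Q i (G s)) 0 * D k (Q (i + 1) (G s)) 0 ∂P) +
      ∫ s, D k (Q (i + 1) (G s)) 0 * D k (Q (i + 1) (G s)) 0 ∂P := by
    intro k
    have a := DQ_l2 hτ i W k
    have b := DQ_l2 hτ (i + 1) W k
    have i1 : Integrable (fun s => D k (Q i (G s)) 0 * D k (Q i (G s)) 0) P := a.integrable_mul a
    have i2 : Integrable (fun s => 2 * (D k (Q i (G s)) 0 * D k (Q (i + 1) (G s)) 0)) P :=
      (a.integrable_mul b).const_mul 2
    have i3 : Integrable (fun s => D k (Q (i + 1) (G s)) 0 * D k (Q (i + 1) (G s)) 0) P :=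
      b.integrable_mul b
    rw [← integral_const_mul, ← int3 i1 i2 i3]
    refine integral_congr_ae (ae_of_all _ fun s => ?_)
    show _ = D k (Q i (G s)) 0 * D k (Q i (G s)) 0 + 2 * (D k (Q i (G s)) 0 *
      D k (Q (i + 1) (G s)) 0) + D k (Q (i + 1) (G s)) 0 * D k (Q (i + 1) (G s)) 0
    ring
  simp only [h2] at h1
  rw [Finset.sum_add_distrib, Finset.sum_add_distrib, ← Finset.mul_sum] at h1
  have h3 := e_p hτ W mm im m2 i i
  have h4 := e_p hτ W mm im m2 i (i + 1)
  have h5 := e_p hτ W mm im m2 (i + 1) (i + 1)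
  have n1 : i + i = 2 * i := by ring
  have n2 : i + (i + 1) = 2 * i + 1 := by ring
  have n3 : i + 1 + (i + 1) = 2 * i + 2 := by ring
  rw [n1] at h3
  rw [n2] at h4
  rw [n3] at h5
  unfold e at h3 h4 h5
  linarith

end main

end

end Pool.Agent.W2helper17.FM
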