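import Pool.Agent.W2helper17.FM.C

/-!
The fourth moment inequality for stationary waves in `ℝ^d` (helper17).
-/

set_option autoImplicit false
set_option linter.unusedSectionVars false
open MeasureTheory Filter Topology
open scoped ContDiff ENNReal

namespace Pool.Agent.W2helper17.FM

open Pool.Agent.Y139.SW

noncomputable section

variable {d : ℕ} {S : Type*} [MeasurableSpace S] {P : Measure S} {τ : E d → S → S}
  [IsProbabilityMeasure P] (hτ : ∀ x, MeasurePreserving (τ x) P P)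
  {G : S → E d → ℝ} (W : W4 P τ G) {m : S → ℝ} (mm : Measurable m) (im : ∀ x s, m (τ x s) = m s)
  (m2 : MemLp m 2 P)

include hτ in
/-- an invariant factor can be taken out -/
lemma div_inv {h : S → ℝ} (mh : Measurable h) (ih : ∀ x s, h (τ x s) = h s) (h2 : MemLp h 2 P)
    {V : S → E d → ℝ} (hV : SF τ V) (k : Fin d) (v0 : MemLp (fun s => V s 0) 2 P)
    (v1 : MemLp (fun s => D k (V s) 0) 2 P) : ∫ s, D k (V s) 0 * h s ∂P = 0 := by
  have hH : SF τ (fun (s : S) (_ : E d) => h s) :=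
    ⟨fun _ => mh, fun s => contDiff_const, fun x s _ => ih x s⟩
  have e0 : ∀ s, D k (fun _ : E d => h s) 0 = 0 := fun s => by
    unfold D; simp
  have := ibpE hτ hV hH k v0 v1 h2 (by simp only [e0]; exact MemLp.zero')
  simp only [e0, mul_zero, integral_zero, neg_zero] at this
  exact this

include hτ W in
/-- all energy densities have the same conditional expectation -/
lemma Q_inv {h : S → ℝ} (mh : Measurable h) (ih : ∀ x s, h (τ x s) = h s) (h2 : MemLp h 2 P)
    (n : ℕ) : ∫ s, Q n (G s) 0 * h s ∂P = ∫ s, G s 0 ^ 2 * h s ∂P := by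
  induction n with
  | zero => simp only [Q_zero]
  | succ n ih' =>
    rw [← ih']
    have h1 : ∀ s, Q (n + 1) (G s) 0 * h s = Q n (G s) 0 * h s +
        1 / 2 * ∑ k, D k (D k (Q n (G s))) 0 * h s := by
      intro s
      have := Lap_Q n (W.sf.smooth s) (W.eq s) 0
      unfold Lap at this
      rw [← Finset.sum_mul, this]; ring
    have a1 : Integrable (fun s => Q n (G s) 0 * h s) P := (Q_l2 hτ n W).integrable_mul h2
    have a2 : ∀ k ∈ Finset.univ, Integrable (fun s => D k (D k (Q n (G s))) 0 * h s) P :=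
      fun k _ => (DDQ_l2 hτ n W k).integrable_mul h2
    simp only [h1]
    rw [integral_add a1 ((integrable_finsetSum _ a2).const_mul _), integral_const_mul,
      integral_finsetSum _ a2]
    have h3 : ∀ k, ∫ s, D k (D k (Q n (G s))) 0 * h s ∂P = 0 := fun k =>
      div_inv hτ mh ih h2 ((sf_Q n W.sf).der k) k (DQ_l2 hτ n W k) (DDQ_l2 hτ n W k)
    simp [h3]

section

variable (hm : ∫ s, G s 0 ^ 2 * m s ∂P = ∫ s, m s * m s ∂P)

include hτ W mm im m2 hm in
lemma p_eq (n : ℕ) : p P G m n = (∫ s, G s 0 ^ 2 * Q n (G s) 0 ∂P) - ∫ s, m s * m s ∂P := by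
  have q0 := Q_l2 hτ 0 W
  have qn := Q_l2 hτ n W
  have e1 : ∀ s, U G m n s 0 * U G m 0 s 0 = G s 0 ^ 2 * Q n (G s) 0 + -(Q n (G s) 0 * m s) +
      -(G s 0 ^ 2 * m s - m s * m s) := by
    intro s
    show (Q n (G s) 0 - m s) * (Q 0 (G s) 0 - m s) = _
    rw [Q_zero]; ring
  have a0 : MemLp (fun s => G s 0 ^ 2) 2 P := by
    have := q0
    simp only [Q_zero] at this
    exact this
  have i1 : Integrable (fun s => G s 0 ^ 2 * Q n (G s) 0) P := a0.integrable_mul qn
  have i2 : Integrable (fun s => Q n (G s) 0 * m s) P := qn.integrable_mul m2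
  have i3 : Integrable (fun s => G s 0 ^ 2 * m s) P := a0.integrable_mul m2
  have i4 : Integrable (fun s => m s * m s) P := m2.integrable_mul m2
  have i5 : Integrable (fun s => -(Q n (G s) 0 * m s)) P := i2.neg
  have i6 : Integrable (fun s => -(G s 0 ^ 2 * m s - m s * m s)) P := (i3.sub i4).neg
  unfold p
  simp only [e1]
  rw [int3 i1 i5 i6, integral_neg, integral_neg, integral_sub i3 i4,
    Q_inv hτ W mm im m2 n, hm]
  ring

include hτ W mm im m2 hm in
lemma p_ge (n : ℕ) : -(∫ s, m s * m s ∂P) ≤ p P G m n := by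
  rw [p_eq hτ W mm im m2 hm]
  have : 0 ≤ ∫ s, G s 0 ^ 2 * Q n (G s) 0 ∂P :=
    integral_nonneg fun s => mul_nonneg (sq_nonneg _) (Q_nn _ _ _)
  linarith

include hτ W mm im m2 hm in
/-- the kinetic energy density fluctuates less than the potential energy density -/
theorem p2_le : p P G m 2 ≤ p P G m 0 :=
  seq_le (fun i => p_even hτ W mm im m2 i) (fun i => p_cs hτ W mm im m2 i)
    (fun i => p_mono hτ W mm im m2 i) (fun n => p_ge hτ W mm im m2 hm n)

include hτ W mm im m2 hm in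
lemma third : 3 * ∫ s, G s 0 ^ 2 * Q 1 (G s) 0 ∂P = ∫ s, G s 0 ^ 4 ∂P := by
  have h1 := e_p hτ W mm im m2 0 0
  rw [zero_add, zero_add, p_eq hτ W mm im m2 hm, p_eq hτ W mm im m2 hm] at h1
  have h2 : ∀ s, G s 0 ^ 2 * Q 0 (G s) 0 = G s 0 ^ 4 := fun s => by rw [Q_zero]; ring
  simp only [h2] at h1
  have h3 : e P G 0 0 = 2 * ∫ s, G s 0 ^ 2 * Q 1 (G s) 0 ∂P := by
    unfold e
    have e1 : ∀ k s, D k (Q 0 (G s)) 0 * D k (Q 0 (G s)) 0 =
        4 * ((G s 0 * D k (G s) 0) * (G s 0 * D k (G s) 0)) := by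
      intro k s
      have h4 : D k (Q 0 (G s)) 0 = D k (G s) 0 * G s 0 + G s 0 * D k (G s) 0 :=
        B_D 0 (W.sf.smooth s) (W.sf.smooth s) k 0
      rw [h4]; ring
    have l2 : ∀ k, MemLp (fun s => G s 0 * D k (G s) 0) 2 P := fun k =>
      mul_44 (W.sf.meas 0) ((W.sf.der k).meas 0) W.l4 (W.der hτ k).l4
    have i5 : ∀ k ∈ Finset.univ, Integrable (fun s => (G s 0 * D k (G s) 0) *
        (G s 0 * D k (G s) 0)) P := fun k _ => (l2 k).integrable_mul (l2 k)
    simp only [e1, integral_const_mul]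
    rw [← Finset.mul_sum, ← integral_finsetSum _ i5, ← mul_assoc]
    norm_num
    refine integral_congr_ae (ae_of_all _ fun s => ?_)
    show ∑ k, (G s 0 * D k (G s) 0) * (G s 0 * D k (G s) 0) = G s 0 ^ 2 * Q 1 (G s) 0
    rw [Q_one, Finset.mul_sum]
    exact Finset.sum_congr rfl fun k _ => by ring
  rw [h3] at h1
  linarith

include hτ W mm im m2 hm in
lemma p01 : p P G m 0 + p P G m 1 = 4 / 3 * (∫ s, G s 0 ^ 4 ∂P) - 2 * ∫ s, m s * m s ∂P := by
  have h1 := third hτ W mm im m2 hm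
  rw [p_eq hτ W mm im m2 hm, p_eq hτ W mm im m2 hm]
  have h2 : ∀ s, G s 0 ^ 2 * Q 0 (G s) 0 = G s 0 ^ 4 := fun s => by rw [Q_zero]; ring
  simp only [h2]
  linarith

include hτ W mm im m2 in
lemma sq_p : ∫ s, (U G m 0 s 0 + U G m 1 s 0) ^ 2 ∂P =
    p P G m 0 + 2 * p P G m 1 + p P G m 2 := by
  have a := U_l2 hτ W m2 0
  have b := U_l2 hτ W m2 1
  have i1 : Integrable (fun s => U G m 0 s 0 * U G m 0 s 0) P := a.integrable_mul a
  have i2 : Integrable (fun s => 2 * (U G m 1 s 0 * U G m 0 s 0)) P :=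
    (b.integrable_mul a).const_mul 2
  have i3 : Integrable (fun s => U G m 1 s 0 * U G m 1 s 0) P := b.integrable_mul b
  have h1 := U_p hτ W mm im m2 1 1
  rw [← h1]
  unfold p
  rw [← integral_const_mul, ← int3 i1 i2 i3]
  refine integral_congr_ae (ae_of_all _ fun s => ?_)
  show _ = U G m 0 s 0 * U G m 0 s 0 + 2 * (U G m 1 s 0 * U G m 0 s 0) +
    U G m 1 s 0 * U G m 1 s 0
  ring

include hτ W mm im m2 hm in
/-- the core inequality -/
theorem core : ∫ s, (U G m 0 s 0 + U G m 1 s 0) ^ 2 ∂P ≤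
    8 / 3 * (∫ s, G s 0 ^ 4 ∂P) - 4 * ∫ s, m s * m s ∂P := by
  have h1 := sq_p hτ W mm im m2
  have h2 := p01 hτ W mm im m2 hm
  have h3 := p2_le hτ W mm im m2 hm
  rw [h1]
  linarith

include hτ W mm im m2 hm in
/-- the converse of the equality case -/
theorem core_conv (h0 : ∀ᵐ s ∂P, U G m 0 s 0 + U G m 1 s 0 = 0) :
    4 / 3 * (∫ s, G s 0 ^ 4 ∂P) - 2 * ∫ s, m s * m s ∂P = 0 := by
  rw [← p01 hτ W mm im m2 hm]
  have a := U_l2 hτ W m2 0
  have b := U_l2 hτ W m2 1
  have i1 : Integrable (fun s => U G m 0 s 0 * U G m 0 s 0) P := a.integrable_mul a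
  have i2 : Integrable (fun s => U G m 1 s 0 * U G m 0 s 0) P := b.integrable_mul a
  unfold p
  rw [← integral_add i1 i2]
  refine integral_eq_zero_of_ae ?_
  filter_upwards [h0] with s hs
  show U G m 0 s 0 * U G m 0 s 0 + U G m 1 s 0 * U G m 0 s 0 = 0
  rw [← add_mul, hs, zero_mul]

end

end

end Pool.Agent.W2helper17.FM
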